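import Pool.Agent.Run7.h428.OddG
import Pool.Agent.Run7.h428.NF.Tn
import Pool.Agent.Run7.h289.J.Cl
import Pool.Agent.Run7.h424.J.Tr

/-!
# The law of the masks for the twists of `X_0(15)`

The joint law of the solvable factorizations (`Run7/h289/J/Cl`, `Run7/h424/J/Tr`) as a law of
`Run7.h428.OddG`: the numbers are the squarefree `n = 23, 47` modulo `60`, the mask of `n` is its set of
prime factors, and the label of a mask is `r` if the number of the solvable factorizations is `2 ^ (r + 1)`.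
-/

set_option autoImplicit false

open scoped Classical symmDiff

namespace Run7.h428.X15

open Finset Filter Topology
open Run7.h428.MixG Run7.h428.OddG
open Run7.h428.NF
open Pool.Agent.Run7.h843.G (Nf)
open Pool.Agent.Run7.h238.J (tw)
open Run7.h843.L (gk)

/-- the class -/
def Cl (n : ℕ) : Prop := Squarefree n ∧ (n % 60 = 23 ∨ n % 60 = 47)

/-- the numbers of the class -/
noncomputable def SX (X : ℕ) : Finset ℕ := (Icc 1 X).filter fun n => Cl n

/-- the admissible masks -/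
def am (V : Finset ℕ) : Prop :=
  (∀ p ∈ V, p.Prime) ∧ ((∏ p ∈ V, p) % 60 = 1 ∨ (∏ p ∈ V, p) % 60 = 49)

/-- the label of a mask -/
def RN (m : Finset ℕ) (r : ℕ) : Prop := Nf (∏ p ∈ m, p) = 2 ^ (r + 1)

theorem mem_SX {X n : ℕ} : n ∈ SX X ↔ (1 ≤ n ∧ n ≤ X) ∧ Cl n := by
  unfold SX
  rw [mem_filter, mem_Icc]

theorem cl_ex {n : ℕ} : (∃ X, n ∈ SX X) ↔ Cl n := by
  constructor
  · rintro ⟨X, hX⟩
    exact (mem_SX.1 hX).2
  · intro h
    exact ⟨n, mem_SX.2 ⟨⟨Nat.one_le_iff_ne_zero.2 h.1.ne_zero, le_rfl⟩, h⟩⟩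

theorem prod_pf {n : ℕ} (h : Cl n) : ∏ p ∈ n.primeFactors, p = n :=
  Nat.prod_primeFactors_of_squarefree h.1

theorem sqf_ms {V : Finset ℕ} (hV : ∀ p ∈ V, p.Prime) : Squarefree (∏ p ∈ V, p) := by
  refine Finset.squarefree_prod_of_pairwise_isCoprime (fun a ha b hb hab => ?_)
    fun l hl => (hV l hl).squarefree
  exact Nat.coprime_iff_isRelPrime.1 ((Nat.coprime_primes (hV a ha) (hV b hb)).2 hab)

/-- products of squares modulo `60` -/
theorem key60 : ∀ a < 60, ∀ b ∈ [1, 49], ∀ c ∈ [1, 49], ∀ d ∈ [1, 49],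
    a * b % 60 = c * d % 60 → a = 1 ∨ a = 49 := by decide

theorem mul60 {a b c d : ℕ} (hb : b % 60 = 1 ∨ b % 60 = 49) (hc : c % 60 = 1 ∨ c % 60 = 49)
    (hd : d % 60 = 1 ∨ d % 60 = 49) (h : a * b = c * d) : a % 60 = 1 ∨ a % 60 = 49 := by
  have h3 : a * b % 60 = c * d % 60 := by rw [h]
  rw [Nat.mul_mod, Nat.mul_mod c] at h3
  refine key60 _ (Nat.mod_lt _ (by norm_num)) (b % 60) ?_ (c % 60) ?_ (d % 60) ?_ h3
  · simpa using hb
  · simpa using hc
  · simpa using hd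

theorem am_emp : am ∅ := ⟨fun _ h => absurd h (notMem_empty _), Or.inl (by simp)⟩

theorem pr_sd {V V' : Finset ℕ} (h : ∀ p ∈ V, p.Prime) (h' : ∀ p ∈ V', p.Prime) :
    ∀ p ∈ V ∆ V', p.Prime := by
  intro p hp
  rcases mem_symmDiff.1 hp with h1 | h1
  · exact h p h1.1
  · exact h' p h1.1

theorem sq_part {V V' : Finset ℕ} (hc : Nat.Coprime (∏ p ∈ V, p) 60) :
    (∏ p ∈ V ∩ V', p) ^ 2 % 60 = 1 ∨ (∏ p ∈ V ∩ V', p) ^ 2 % 60 = 49 :=
  sq60 (Nat.Coprime.coprime_dvd_left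
    (Finset.prod_dvd_prod_of_subset _ _ _ Finset.inter_subset_left) hc)

theorem am_sd {V V' : Finset ℕ} (h : am V) (h' : am V') : am (V ∆ V') := by
  refine ⟨pr_sd h.1 h'.1, ?_⟩
  exact mul60 (sq_part (V' := V') (cop60 (by rcases h.2 with h1 | h1 <;> tauto))) h.2 h'.2
    (prod_sd V V')

theorem am_cl {n n' : ℕ} (h : Cl n) (h' : Cl n') : am (n.primeFactors ∆ n'.primeFactors) := by
  refine ⟨pr_sd (fun p hp => Nat.prime_of_mem_primeFactors hp)
    (fun p hp => Nat.prime_of_mem_primeFactors hp), ?_⟩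
  have h1 := prod_sd n.primeFactors n'.primeFactors
  rw [prod_pf h, prod_pf h'] at h1
  have h2 : Nat.Coprime (∏ p ∈ n.primeFactors, p) 60 := by
    rw [prod_pf h]
    exact cop60 (by rcases h.2 with h1 | h1 <;> tauto)
  have h3 : (n * n') % 60 = 1 ∨ (n * n') % 60 = 49 := by
    rw [Nat.mul_mod]
    rcases h.2 with h4 | h4 <;> rcases h'.2 with h5 | h5 <;> rw [h4, h5] <;> norm_num
  exact mul60 (sq_part (V' := n'.primeFactors) h2) h3 (Or.inl (by norm_num : 1 % 60 = 1))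
    (by rw [h1, mul_one])

theorem od_cl {n : ℕ} (h : Cl n) : Od SX Nat.primeFactors am n.primeFactors :=
  fun _ _ hD => am_cl h (mem_SX.1 hD).2

/-- the numbers whose masks are in the coset -/
theorem cl_od {b : Finset ℕ} (h : Od SX Nat.primeFactors am b) : Cl (∏ p ∈ b, p) ∧
    (∏ p ∈ b, p).primeFactors = b := by
  have h23 : Cl 23 := ⟨(by norm_num : Nat.Prime 23).squarefree, Or.inl (by norm_num)⟩
  have h1 := h 23 23 (mem_SX.2 ⟨by norm_num, h23⟩)
  have hb : ∀ p ∈ b, p.Prime := by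
    intro p hp
    by_cases h2 : p ∈ Nat.primeFactors 23
    · exact Nat.prime_of_mem_primeFactors h2
    · exact h1.1 p (mem_symmDiff.2 (Or.inl ⟨hp, h2⟩))
  refine ⟨⟨sqf_ms hb, ?_⟩, Nat.primeFactors_prod hb⟩
  have e : b = Nat.primeFactors 23 ∆ (b ∆ Nat.primeFactors 23) := by
    rw [symmDiff_comm b, symmDiff_symmDiff_cancel_left]
  have h2 := tn_mod (n := 23) (T := b ∆ Nat.primeFactors 23) h23.1 h23.2 h1.1 h1.2
  unfold tn at h2
  rwa [← e] at h2

theorem gk_pos (r : ℕ) : 0 < gk r := by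
  rw [Run7.h843.L.gk_eq]
  have h1 := Pool.Agent.N916.GB.eta_pos
  have h2 := Run7.h843.L.Qn_pos r
  positivity

theorem low120 (X : ℕ) (hX : 100 * 120 ^ 2 ≤ X) : (1 / 480 : ℝ) * X ≤ ((SX X).card : ℝ) := by
  have h := Pool.Agent.Run7.h741.NM.low (M := 120) (a := 23) (by norm_num) (by norm_num)
    (by norm_num) (by norm_num) X (by simpa using hX)
  have h1 : (1 / (4 * ((120 : ℕ) : ℝ)) : ℝ) = 1 / 480 := by norm_num
  rw [h1] at h
  refine h.trans ?_
  have h2 : ((Icc 1 X).filter fun D => Squarefree D ∧ D % 120 = 23) ⊆ SX X := by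
    intro n hn
    rw [mem_filter] at hn
    exact mem_SX.2 ⟨mem_Icc.1 hn.1, hn.2.1, Or.inl (by omega)⟩
  exact_mod_cast card_le_card h2

theorem card_inf : Tendsto (fun X => ((SX X).card : ℝ)) atTop atTop := by
  have h1 : Tendsto (fun X : ℕ => (1 / 480 : ℝ) * (X : ℝ)) atTop atTop :=
    Tendsto.const_mul_atTop (by norm_num) tendsto_natCast_atTop_atTop
  refine tendsto_atTop_mono' atTop ?_ h1
  filter_upwards [eventually_ge_atTop (100 * 120 ^ 2)] with X hX
  exact low120 X hX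

theorem mf {T : Finset ℕ} {q : ℕ → Prop} {inst : DecidablePred q} {n : ℕ} :
    n ∈ @Finset.filter ℕ q inst T ↔ n ∈ T ∧ q n := @Finset.mem_filter ℕ q inst T n

theorem law_nf (P : Finset (Finset ℕ)) (f : Finset ℕ → ℕ) (hP : ∀ V ∈ P, am V) :
    Tendsto (fun X => cn (SX X) {D | ∀ V ∈ P, RN (D.primeFactors ∆ V) (f V)} /
      ((SX X).card : ℝ)) atTop (𝓝 (∏ V ∈ P, gk (f V))) := by
  have e : Fin P.card ≃ P := P.equivFin.symm
  have hpr : ∀ k, ∀ p ∈ (e k : Finset ℕ), p.Prime := fun k => (hP _ (e k).2).1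
  have hpf : ∀ k, (∏ p ∈ (e k : Finset ℕ), p).primeFactors = (e k : Finset ℕ) :=
    fun k => Nat.primeFactors_prod (hpr k)
  have h := Pool.Agent.Run7.h424.J.dens_JNf (fun k => f (e k))
    (Pool.Agent.Run7.h289.J.t_JDQ _) (fun k => ∏ p ∈ (e k : Finset ℕ), p)
    (fun i j hij => by
      have h1 : ∏ p ∈ (e i : Finset ℕ), p = ∏ p ∈ (e j : Finset ℕ), p := hij
      have h2 : (e i : Finset ℕ) = (e j : Finset ℕ) := by rw [← hpf i, ← hpf j, h1]
      exact e.injective (Subtype.ext h2))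
    (fun k => sqf_ms (hpr k))
    (fun k => by rcases (hP _ (e k).2).2 with h1 | h1 <;> omega) 120 (by norm_num) (by norm_num)
    (fun n => n % 60 = 23 ∨ n % 60 = 47)
    (fun n => by
      have : n % 120 % 60 = n % 60 := Nat.mod_mod_of_dvd n (by norm_num)
      rw [this])
    (fun n hn => by omega) 23 (Or.inl (by norm_num)) (by norm_num)
  have e1 : ∏ k, gk (f (e k)) = ∏ V ∈ P, gk (f V) := by
    rw [e.prod_comp fun V : P => gk (f V), Finset.prod_coe_sort P fun V => gk (f V)]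
  rw [← e1]
  have h2 : ∀ n : ℕ, Squarefree n → ∀ V ∈ P, RN (n.primeFactors ∆ V) (f V) ↔
      Nf (tw (∏ p ∈ V, p) n) = 2 ^ (f V + 1) := by
    intro n hn V hV
    have hpV := (hP V hV).1
    have h3 := Pool.Agent.Run7.h424.J.tw_spec (sqf_ms hpV) hn
    unfold RN
    have h4 : ∏ p ∈ n.primeFactors ∆ V, p = tw (∏ p ∈ V, p) n := by
      rw [← Nat.prod_primeFactors_of_squarefree h3.1, h3.2.1, Nat.primeFactors_prod hpV]
    rw [h4]
  refine h.congr fun X => ?_
  rw [cn_eq (SX X) {D : ℕ | ∀ V ∈ P, RN (D.primeFactors ∆ V) (f V)}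
    (fun D : ℕ => ∀ V ∈ P, RN (D.primeFactors ∆ V) (f V)) fun D _ => Iff.rfl]
  refine congrArg₂ (fun a b : ℝ => a / b) (congrArg (fun S : Finset ℕ => (S.card : ℝ))
    (Finset.ext fun n => ?_)) (congrArg (fun S : Finset ℕ => (S.card : ℝ))
    (Finset.ext fun n => ?_))
  · rw [mf, mf, mem_SX, mem_Icc]
    unfold Cl
    constructor
    · rintro ⟨h3, h4, h5, h6⟩
      refine ⟨⟨h3, h4, h5⟩, fun V hV => (h2 n h4 V hV).2 ?_⟩
      have h7 := h6 (e.symm ⟨V, hV⟩)
      rwa [e.apply_symm_apply] at h7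
    · rintro ⟨⟨h3, h4, h5⟩, h6⟩
      exact ⟨h3, h4, h5, fun k => (h2 n h4 _ (e k).2).1 (h6 _ (e k).2)⟩
  · rw [mf, mem_SX, mem_Icc]
    rfl

/-- **the law** -/
theorem isLaw : Law SX Nat.primeFactors id RN am gk where
  inf := card_inf
  p0 := gk_pos
  p1 := fun r => (Run7.h843.L.gk_mem r).2
  adm0 := am_emp
  admS := fun _ _ => am_sd
  admU := fun _ _ _ hD _ hD' => am_cl (mem_SX.1 hD).2 (mem_SX.1 hD').2
  nadm := by
    intro X D hD h
    have h1 := (mem_SX.1 hD).2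
    have h2 := h.2
    rw [prod_pf h1] at h2
    rcases h1.2 with h3 | h3 <;> omega
  fib := by
    intro V
    have h1 : Tendsto (fun X => 1 / ((SX X).card : ℝ)) atTop (𝓝 0) := by
      have := card_inf.inv_tendsto_atTop
      refine this.congr fun X => ?_
      simp
    refine squeeze_zero (fun X => div_nonneg (cn_nonneg _ _) (Nat.cast_nonneg _)) (fun X => ?_) h1
    refine div_le_div_of_nonneg_right ?_ (Nat.cast_nonneg _)
    rw [cn_eq (SX X) {D : ℕ | D.primeFactors = V} (fun D : ℕ => D.primeFactors = V)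
      fun D _ => Iff.rfl, Nat.cast_le_one, card_le_one]
    intro a ha b hb
    rw [mem_filter] at ha hb
    rw [← prod_pf (mem_SX.1 ha.1).2, ← prod_pf (mem_SX.1 hb.1).2, ha.2, hb.2]
  fht := fun B => (Set.finite_le_nat B).subset fun D hD => hD.2
  law := law_nf

end Run7.h428.X15
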