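import Pool.Agent.Run7.h428.X15.Top
import Pool.Agent.Run7.h428.X15.Law
import Pool.Agent.Run7.h289.D18.Fn

/-!
# The good numbers for a field generated by square roots, and their proportion
-/

set_option autoImplicit false
set_option linter.unusedSectionVars false

open scoped Classical symmDiff

namespace Run7.h428.X15

open NumberField WeierstrassCurve Filter Topology
open Run7.h428.NF Run7.h428.Kum Run7.h428.MixG
open Pool.Agent.Run7.h843.G (Nf)
open Pool.Agent.Run7.h238.J (tw)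
open Run7.h843.L (gk)
open Pool.Agent.N969.P15 (Cls0 Qc)

theorem cl_iff {n : ℕ} : Cl n ↔ Cls0 n := Iff.rfl

theorem tn_tw {n : ℕ} (hn : Squarefree n) {T : Finset ℕ} (hT : ∀ l ∈ T, l.Prime) :
    tn n T = tw (∏ l ∈ T, l) n := by
  have h3 := Pool.Agent.Run7.h424.J.tw_spec (sqf_ms hT) hn
  unfold tn
  rw [← Nat.prod_primeFactors_of_squarefree h3.1, h3.2.1, Nat.primeFactors_prod hT]

/-- all the twists are good -/
def GdS (M : IntermediateField ℚ ℂ) (n : ℕ) : Prop :=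
  ∀ m : ℕ, Squarefree m → (∃ z ∈ M, z ^ 2 = (m : ℂ)) → Qc (tw m n)

/-- all the twists but the first are good -/
def AlS (M : IntermediateField ℚ ℂ) (n : ℕ) : Prop :=
  ∀ m : ℕ, Squarefree m → m ≠ 1 → (∃ z ∈ M, z ^ 2 = (m : ℂ)) → Qc (tw m n)

variable {S : Finset ℕ}

theorem al_iff (hS : ∀ m ∈ S, Mu m) {n : ℕ} (hn : Cls0 n) :
    AlS (fld (S : Set ℕ)) n ↔ ∀ T ∈ HF (fld (S : Set ℕ)) S, T ≠ ∅ → Qc (tn n T) := by
  obtain ⟨r, h⟩ := mq hS
  constructor
  · intro hg T hT hT0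
    have hpr := h.pr T hT
    rw [tn_tw hn.1 hpr]
    refine hg _ (sqf_ms hpr) (fun h1 => hT0 ?_) ((sqrt_iff S _).2 (mem_HF.1 hT).2)
    rw [← Nat.primeFactors_prod hpr, h1, Nat.primeFactors_one]
  · intro hg m hm hm1 hz
    obtain ⟨z, hz⟩ := (sqrt_iff S m).1 hz
    have hT := h.sqrt_mem hm hz
    have h1 := hg _ hT (fun h0 => hm1 (by
      rw [← Nat.prod_primeFactors_of_squarefree hm, h0, Finset.prod_empty]))
    rwa [tn_tw hn.1 (h.pr _ hT), Nat.prod_primeFactors_of_squarefree hm] at h1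

theorem tw_one {n : ℕ} : tw 1 n = n := by
  unfold tw
  rw [Nat.gcd_one_left, one_mul, one_pow, Nat.div_one]

theorem gd_al {M : IntermediateField ℚ ℂ} {n : ℕ} : GdS M n ↔ Qc n ∧ AlS M n := by
  constructor
  · intro h
    refine ⟨?_, fun m hm _ hz => h m hm hz⟩
    have := h 1 squarefree_one ⟨1, M.one_mem, by simp⟩
    rwa [tw_one] at this
  · rintro ⟨h1, h2⟩ m hm hz
    by_cases hm1 : m = 1
    · rw [hm1, tw_one]
      exact h1
    · exact h2 m hm hm1 hz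

theorem gd_iff (hS : ∀ m ∈ S, Mu m) {n : ℕ} (hn : Cls0 n) :
    GdS (fld (S : Set ℕ)) n ↔ ∀ T ∈ HF (fld (S : Set ℕ)) S, Qc (tn n T) := by
  obtain ⟨r, h⟩ := mq hS
  rw [gd_al, al_iff hS hn]
  constructor
  · rintro ⟨h1, h2⟩ T hT
    by_cases hT0 : T = ∅
    · rw [hT0, tn_emp hn.1]
      exact h1
    · exact h2 T hT hT0
  · intro h2
    refine ⟨?_, fun T hT _ => h2 T hT⟩
    have := h2 ∅ h.emp
    rwa [tn_emp hn.1] at this

/-- the number of the elements of the class with a property -/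
noncomputable def num (Q : ℕ → Prop) (X : ℕ) : ℕ :=
  ((Finset.Icc 1 X).filter fun n => Cl n ∧ Q n).card

theorem gk_zero : gk 0 = Pool.Agent.N916.GB.eta := by
  rw [Run7.h843.L.gk_eq]
  unfold Run7.h843.L.Qn
  simp

theorem prop_P (P : Finset (Finset ℕ)) (hP : ∀ V ∈ P, am V) {Q : ℕ → Prop}
    (hQ : ∀ n, Cls0 n → (Q n ↔ ∀ T ∈ P, Qc (tn n T))) :
    Tendsto (fun X => (num Q X : ℝ) / (num (fun _ => True) X : ℝ)) atTop
      (𝓝 (Pool.Agent.N916.GB.eta ^ P.card)) := by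
  have h := law_nf P (fun _ => 0) hP
  rw [Finset.prod_const, gk_zero] at h
  refine h.congr fun X => ?_
  rw [cn_eq (SX X) {D : ℕ | ∀ V ∈ P, RN (D.primeFactors ∆ V) 0}
    (fun D : ℕ => ∀ V ∈ P, RN (D.primeFactors ∆ V) 0) fun D _ => Iff.rfl]
  unfold num
  refine congrArg₂ (fun a b : ℝ => a / b) (congrArg (fun S : Finset ℕ => (S.card : ℝ))
    (Finset.ext fun n => ?_)) (congrArg (fun S : Finset ℕ => (S.card : ℝ))
    (Finset.ext fun n => ?_))
  · rw [mf, mf, mem_SX, Finset.mem_Icc, and_assoc]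
    refine and_congr_right fun _ => and_congr_right fun hn => ?_
    rw [hQ n hn]
    refine forall_congr' fun V => forall_congr' fun hV => ?_
    have h1 : 1 < tn n V := by
      have := tn_mod (T := V) hn.1 hn.2 (hP V hV).1 (hP V hV).2
      omega
    unfold RN
    rw [zero_add, pow_one]
    exact Pool.Agent.Run7.h289.D18.Nf_two h1
  · rw [mf, mem_SX, Finset.mem_Icc, and_true]

/-- **the proportion of the good numbers** -/
theorem prop_gd (hS : ∀ m ∈ S, Mu m) : Tendsto (fun X =>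
    (num (GdS (fld (S : Set ℕ))) X : ℝ) / (num (fun _ => True) X : ℝ)) atTop
      (𝓝 (Pool.Agent.N916.GB.eta ^ Module.finrank ℚ (fld (S : Set ℕ)))) := by
  obtain ⟨r, h⟩ := mq hS
  rw [h.finrank_eq]
  exact prop_P _ (fun V hV => ⟨h.pr V hV, h.m60 V hV⟩) fun n hn => gd_iff hS hn

theorem prop_al (hS : ∀ m ∈ S, Mu m) : Tendsto (fun X =>
    (num (AlS (fld (S : Set ℕ))) X : ℝ) / (num (fun _ => True) X : ℝ)) atTop
      (𝓝 (Pool.Agent.N916.GB.eta ^ (Module.finrank ℚ (fld (S : Set ℕ)) - 1))) := by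
  obtain ⟨r, h⟩ := mq hS
  rw [h.finrank_eq, ← Finset.card_erase_of_mem h.emp]
  refine prop_P _ (fun V hV => ?_) fun n hn => ?_
  · have hV := Finset.mem_of_mem_erase hV
    exact ⟨h.pr V hV, h.m60 V hV⟩
  · rw [al_iff hS hn]
    constructor
    · intro h1 T hT
      exact h1 T (Finset.mem_of_mem_erase hT) (Finset.ne_of_mem_erase hT)
    · intro h1 T hT hT0
      exact h1 T (Finset.mem_erase.2 ⟨hT0, hT⟩)

/-- **stability over a field generated by square roots** -/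
theorem stable_S (hS : ∀ m ∈ S, Mu m) {n : ℕ} (hn : Cls0 n) (hg : AlS (fld (S : Set ℕ)) n) :
    (∃ Λ : ℂ → ℂ, Differentiable ℂ Λ ∧
      (∀ s : ℂ, 2 < s.re → Λ s = (EF (fld (S : Set ℕ)) (-(n : ℤ))).LSeries s) ∧
      analyticOrderAt Λ 1 = analyticOrderAt (Lq n) 1) ∧
    ∀ (d : DecidableEq (fld (S : Set ℕ))) (d' : DecidableEq ℚ),
    @Module.rank ℤ (EF (fld (S : Set ℕ)) (-(n : ℤ))).toAffine.Point _
      (@Affine.Point.instAddCommGroup (fld (S : Set ℕ)) _ _ d).toAddCommMonoid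
      (@AddCommGroup.toIntModule _ (@Affine.Point.instAddCommGroup (fld (S : Set ℕ)) _ _ d)) =
    @Module.rank ℤ (EF ℚ (-(n : ℤ))).toAffine.Point _
      (@Affine.Point.instAddCommGroup ℚ _ _ d').toAddCommMonoid
      (@AddCommGroup.toIntModule _ (@Affine.Point.instAddCommGroup ℚ _ _ d')) := by
  obtain ⟨r, h⟩ := mq hS
  have hg' := (al_iff hS hn).1 hg
  exact ⟨⟨_, prod_diff _ n, fun s hs => lser h hn hs, ord_eq h hn hg'⟩,
    fun d d' => rank_st h hn hg' d d'⟩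

/-- **the rank form over a field generated by square roots** -/
theorem zero_S (hS : ∀ m ∈ S, Mu m) {n : ℕ} (hn : Cls0 n) (hg : GdS (fld (S : Set ℕ)) n) :
    (∃ Λ : ℂ → ℂ, Differentiable ℂ Λ ∧
      (∀ s : ℂ, 2 < s.re → Λ s = (EF (fld (S : Set ℕ)) (-(n : ℤ))).LSeries s) ∧ Λ 1 ≠ 0) ∧
    Finite (EF (fld (S : Set ℕ)) (-(n : ℤ))).toAffine.Point := by
  obtain ⟨r, h⟩ := mq hS
  have hg' := (gd_iff hS hn).1 hg
  refine ⟨⟨_, prod_diff _ n, fun s hs => lser h hn hs, ?_⟩, fin_F h hn hg'⟩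
  exact Finset.prod_ne_zero_iff.2 fun T hT => (Lq_spec (cls_tn h hn hT)).2.2 (hg' T hT)

end Run7.h428.X15
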