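import Pool.Agent.Run7.h428.X15.Tor
import Pool.Agent.Run7.h428.X15.Fin

/-!
# The points over finite and infinite fields generated by square roots of multipliers
-/

set_option autoImplicit false
set_option linter.unusedSectionVars false

open scoped symmDiff

namespace Run7.h428.X15

open NumberField WeierstrassCurve
open Run7.h428.NF Run7.h428.Kum Run7.h921.NF
open Pool.Agent.Y682 Pool.Agent.TH841.NF
open Pool.Agent.N969.P15 (Cls0 Qc)

theorem real_fld {S : Set ℕ} {z : ℂ} (hz : z ∈ fld S) : ∃ x : ℝ, (x : ℂ) = z := by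
  have h : fld S ≤ (Complex.ofRealAm.restrictScalars ℚ).fieldRange := by
    unfold fld
    rw [IntermediateField.adjoin_le_iff]
    rintro w ⟨d, -, hw⟩
    have h1 : w ^ 2 = ((Real.sqrt d : ℝ) : ℂ) ^ 2 := by
      rw [hw, ← Complex.ofReal_pow, Real.sq_sqrt (Nat.cast_nonneg d), Complex.ofReal_natCast]
    rcases sq_eq_sq_iff_eq_or_eq_neg.1 h1 with h2 | h2
    · exact ⟨Real.sqrt d, h2.symm⟩
    · exact ⟨-Real.sqrt d, by rw [h2]; simp⟩
  obtain ⟨x, hx⟩ := h hz
  exact ⟨x, hx⟩

theorem no_pos {S : Set ℕ} (hS : ∀ m ∈ S, Mu m) {n : ℕ} (hn : Cls0 n) (z : fld S) :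
    z ^ 2 ≠ (n : fld S) := by
  intro h
  have h1 : ((z : ℂ)) ^ 2 = (n : ℂ) := by
    have h2 := congrArg Subtype.val h
    push_cast at h2
    exact h2
  have h2 := (mu_of_sqrt hS hn.1 ⟨z, z.2, h1⟩).2
  have := hn.2
  omega

theorem no_neg {S : Set ℕ} {n : ℕ} (hn : Cls0 n) (z : fld S) : z ^ 2 ≠ -(n : fld S) := by
  intro h
  have h1 : ((z : ℂ)) ^ 2 = -(n : ℂ) := by
    have h2 := congrArg Subtype.val h
    push_cast at h2
    exact h2
  obtain ⟨x, hx⟩ := real_fld z.2
  rw [← hx] at h1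
  have h2 : x ^ 2 = -(n : ℝ) := by exact_mod_cast h1
  have h3 : 0 < n := by
    have := hn.2
    omega
  have h4 : (0 : ℝ) < n := by exact_mod_cast h3
  nlinarith [sq_nonneg x]

section inc

variable {k k' : Type} [Field k] [Field k']

theorem sc_inc (n : ℕ) (ι : k →+* k') : Sc ι 1 (cv n k) (cv n k') := by
  refine ⟨one_ne_zero, ?_, ?_, ?_, ?_, ?_⟩
  · simp [cv]
  · simp only [cv]
    rw [map_mul, map_ofNat, map_natCast]
    ring
  · simp [cv]
  · simp only [cv]
    rw [map_mul, map_ofNat, map_pow, map_natCast]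
    ring
  · simp [cv]

/-- the inclusion of the points -/
noncomputable def inc (n : ℕ) (ι : k →+* k') : MP (cv n k) →+ MP (cv n k') := mu (sc_inc n ι)

theorem inc_inj (n : ℕ) (ι : k →+* k') : Function.Injective (inc n ι) := mu_inj _

theorem inc_some (n : ℕ) (ι : k →+* k') {x y : k'} (h : (cv n k').toAffine.Nonsingular x y)
    {a b : k} (ha : ι a = x) (hb : ι b = y) :
    ∃ P : MP (cv n k), inc n ι P = (Affine.Point.some x y h : (cv n k').toAffine.Point) := by
  have hns : (cv n k).toAffine.Nonsingular a b := by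
    rw [← ns_iff (sc_inc n ι), ha, hb, one_pow, one_pow, mul_one, mul_one]
    exact h
  refine ⟨Affine.Point.some _ _ hns, pt_ext' (W := cv n k') ?_ ?_⟩
  · rw [ha, one_pow, mul_one]
  · rw [hb, one_pow, mul_one]

end inc

/-- each point is defined over a number field -/
theorem down {S : Set ℕ} (hS : ∀ m ∈ S, Mu m) (n : ℕ) (P : MP (cv n (fld S))) :
    ∃ (S₁ : Finset ℕ) (_ : ∀ m ∈ S₁, Mu m) (h : fld (S₁ : Set ℕ) ≤ fld S)
      (P' : MP (cv n (fld (S₁ : Set ℕ)))),
      inc n (IntermediateField.inclusion h : fld (S₁ : Set ℕ) →+* fld S) P' = P := by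
  rcases P with _ | ⟨x, y, hxy⟩
  · refine ⟨∅, fun m hm => absurd hm (Finset.notMem_empty m), ?_, 0, map_zero _⟩
    unfold fld
    refine IntermediateField.adjoin.mono _ _ _ ?_
    rintro z ⟨d, hd, -⟩
    exact absurd hd (by simp)
  · set F : IntermediateField ℚ ℂ := IntermediateField.adjoin ℚ {(x : ℂ), (y : ℂ)} with hF
    have hFM : F ≤ fld S := by
      rw [hF, IntermediateField.adjoin_le_iff]
      rintro z (rfl | rfl)
      · exact x.2
      · exact y.2
    have hfin : FiniteDimensional ℚ F := by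
      refine IntermediateField.finiteDimensional_adjoin (S := {(x : ℂ), (y : ℂ)}) ?_
      rintro z (rfl | rfl)
      · exact alg_fld _ x.2
      · exact alg_fld _ y.2
    have hN : NumberField F := { to_charZero := inferInstance, to_finiteDimensional := hfin }
    have hx : (x : ℂ) ∈ F := IntermediateField.subset_adjoin ℚ _ (Or.inl rfl)
    have hy : (y : ℂ) ∈ F := IntermediateField.subset_adjoin ℚ _ (Or.inr rfl)
    obtain ⟨S₁, hS₁, hFS⟩ := sub_of hS F hFM
    rw [hFS] at hFM hx hy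
    refine ⟨S₁, hS₁, hFM, ?_⟩
    exact inc_some n (IntermediateField.inclusion hFM : fld (S₁ : Set ℕ) →+* fld S) hxy
      (a := ⟨x, hx⟩) (b := ⟨y, hy⟩) rfl rfl

section points

variable {S : Set ℕ} {n : ℕ}

theorem tn3 {F : Type} [Field F] [NumberField F] {H : Finset (Finset ℕ)} {r : Finset ℕ → F}
    (h : MQ F H r) (hn : Cls0 n) : ∀ T ∈ H, tn n T % 4 = 3 := by
  intro T hT
  have := (cls_tn h hn hT).2
  omega

theorem two_of_tors (hS : ∀ m ∈ S, Mu m) (hn : Cls0 n) (P : MP (cv n (fld S)))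
    (hP : IsOfFinAddOrder P) : P + P = 0 := by
  obtain ⟨S₁, hS₁, hle, P', rfl⟩ := down hS n P
  obtain ⟨r, h⟩ := mq hS₁
  have h1 : IsOfFinAddOrder P' := by
    rw [isOfFinAddOrder_iff_nsmul_eq_zero] at hP ⊢
    obtain ⟨N, hN, h2⟩ := hP
    refine ⟨N, hN, inc_inj n (IntermediateField.inclusion hle : fld (S₁ : Set ℕ) →+* fld S) ?_⟩
    rw [map_nsmul, h2, map_zero]
  have h2 := tors_F h hn.1 (tn3 h hn) (no_pos (fun m hm => hS₁ m hm) hn) (no_neg hn) P' h1
  rw [← map_add, h2, map_zero]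

theorem all_two (hS : ∀ m ∈ S, Mu m) (hn : Cls0 n) (hg : GdS (fld S) n) (P : MP (cv n (fld S))) :
    P + P = 0 := by
  refine two_of_tors hS hn P ?_
  obtain ⟨S₁, hS₁, hle, P', rfl⟩ := down hS n P
  obtain ⟨r, h⟩ := mq hS₁
  have hg' : GdS (fld (S₁ : Set ℕ)) n := fun m hm hz => hg m hm (by
    obtain ⟨z, hz1, hz2⟩ := hz
    exact ⟨z, hle hz1, hz2⟩)
  have h1 := (gd_iff hS₁ hn).1 hg'
  have h2 := Run7.h921.NF.fin h hn.1 fun T hT => fin_of (cls_tn h hn hT) (h1 T hT)
  have h3 : IsOfFinAddOrder P' := isOfFinAddOrder_of_finite P'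
  rw [isOfFinAddOrder_iff_nsmul_eq_zero] at h3 ⊢
  obtain ⟨N, hN, h4⟩ := h3
  exact ⟨N, hN, by rw [← map_nsmul, h4, map_zero]⟩

theorem two_rat (hS : ∀ m ∈ S, Mu m) (hn : Cls0 n) (hg : AlS (fld S) n) (P : MP (cv n (fld S))) :
    ∃ Q : MP (cv n ℚ), inc n (algebraMap ℚ (fld S)) Q = P + P := by
  obtain ⟨S₁, hS₁, hle, P', rfl⟩ := down hS n P
  obtain ⟨r, h⟩ := mq hS₁
  have hg' : AlS (fld (S₁ : Set ℕ)) n := fun m hm hm1 hz => hg m hm hm1 (by
    obtain ⟨z, hz1, hz2⟩ := hz
    exact ⟨z, hle hz1, hz2⟩)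
  have h1 := (al_iff hS₁ hn).1 hg'
  obtain ⟨Q, hQ⟩ := two_mul_rat h hn.1 (tn3 h hn) (no_pos (fun m hm => hS₁ m hm) hn) (no_neg hn)
    (fun T hT hT0 => fin_of (cls_tn h hn hT) (h1 T hT hT0)) P'
  rw [← map_add, ← hQ]
  obtain ⟨q, hq⟩ : ∃ q : ℚ, algebraMap ℚ (fld (S₁ : Set ℕ)) q = uu r n ∅ := by
    have h2 := h.sq ∅ h.emp
    rw [Finset.prod_empty, Nat.cast_one] at h2
    have h3 : (r ∅ - 1) * (r ∅ + 1) = 0 := by linear_combination h2
    unfold uu
    rcases mul_eq_zero.1 h3 with h4 | h4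
    · exact ⟨mm n ∅, by rw [sub_eq_zero.1 h4]; simp⟩
    · refine ⟨-mm n ∅, ?_⟩
      rw [eq_neg_of_add_eq_zero_left h4]
      simp
  rcases Q with _ | ⟨x, y, hxy⟩
  · refine ⟨0, ?_⟩
    rw [map_zero]
    rfl
  · refine inc_some n (algebraMap ℚ (fld S)) (k' := fld S) _ (a := x * q ^ 2) (b := y * q ^ 3) ?_ ?_
    · change _ = (IntermediateField.inclusion hle
        (algebraMap ℚ (fld (S₁ : Set ℕ)) x * uu r n ∅ ^ 2)) * 1 ^ 2
      rw [← hq, ← map_pow, ← map_mul, one_pow, mul_one]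
      exact ((IntermediateField.inclusion hle).commutes _).symm
    · change _ = (IntermediateField.inclusion hle
        (algebraMap ℚ (fld (S₁ : Set ℕ)) y * uu r n ∅ ^ 3)) * 1 ^ 3
      rw [← hq, ← map_pow, ← map_mul, one_pow, mul_one]
      exact ((IntermediateField.inclusion hle).commutes _).symm

/-- **the rank over an infinite field** -/
theorem rank_inf (hS : ∀ m ∈ S, Mu m) (hn : Cls0 n) (hg : AlS (fld S) n) :
    Module.rank ℤ (MP (cv n (fld S))) = Module.rank ℤ (MP (cv n ℚ)) := by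
  set f := (inc n (algebraMap ℚ (fld S))).toIntLinearMap with hfd
  have hinj : Function.Injective f := inc_inj _ _
  have h2 := _root_.rank_quotient_add_rank_of_isDomain (LinearMap.range f)
  have h3 : Module.rank ℤ (MP (cv n (fld S)) ⧸ LinearMap.range f) = 0 := by
    rw [rank_eq_zero_iff]
    intro x
    obtain ⟨P, rfl⟩ := Submodule.Quotient.mk_surjective _ x
    refine ⟨2, two_ne_zero, ?_⟩
    rw [← Submodule.Quotient.mk_smul, Submodule.Quotient.mk_eq_zero]
    obtain ⟨Q, hQ⟩ := two_rat hS hn hg P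
    exact ⟨Q, by rw [two_smul]; exact hQ⟩
  rw [h3, zero_add] at h2
  rw [← h2]
  exact (LinearEquiv.ofInjective f hinj).symm.rank_eq

/-- **the points over an infinite field are finitely generated** -/
theorem fg_inf (hS : ∀ m ∈ S, Mu m) (hn : Cls0 n) (hg : AlS (fld S) n) :
    Module.Finite ℤ (MP (cv n (fld S))) := by
  have hn0 : n ≠ 0 := hn.1.ne_zero
  have hQ : Module.Finite ℤ (MP (cv n ℚ)) := fg_MP (cv_isT hn0 ℚ)
  set f := (inc n (algebraMap ℚ (fld S))).toIntLinearMap with hfd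
  set g : MP (cv n (fld S)) →ₗ[ℤ] MP (cv n (fld S)) := (2 : ℤ) • LinearMap.id with hgd
  have h1 : LinearMap.range g ≤ LinearMap.range f := by
    rintro _ ⟨P, rfl⟩
    obtain ⟨Q, hQ⟩ := two_rat hS hn hg P
    refine ⟨Q, ?_⟩
    have : g P = P + P := by rw [hgd, LinearMap.smul_apply, LinearMap.id_apply, two_smul]
    rw [this]
    exact hQ
  have hfr : Module.Finite ℤ (LinearMap.range f) := Module.Finite.range f
  have hgr : Module.Finite ℤ (LinearMap.range g) :=
    Module.Finite.of_injective (Submodule.inclusion h1) (Submodule.inclusion_injective h1)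
  have hker : Finite (LinearMap.ker g) := by
    have h2 : Nat.card (LinearMap.ker g) = 4 := by
      have h3 : ∀ P : MP (cv n (fld S)), P ∈ ((LinearMap.ker g : Submodule ℤ _) : Set _) ↔
          P + P = 0 := by
        intro P
        rw [SetLike.mem_coe, LinearMap.mem_ker, hgd, LinearMap.smul_apply, LinearMap.id_apply,
          two_smul]
      exact @card4 (fld S) _ _ n (Classical.decEq (fld S)) hn0
        ((LinearMap.ker g : Submodule ℤ _) : Set (MP (cv n (fld S)))) h3
    exact Nat.finite_of_card_ne_zero (by rw [h2]; norm_num)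
  have hk : Module.Finite ℤ (LinearMap.ker g) := Module.Finite.of_finite
  have hq : Module.Finite ℤ (MP (cv n (fld S)) ⧸ LinearMap.ker g) :=
    Module.Finite.equiv g.quotKerEquivRange.symm
  exact Module.Finite.of_submodule_quotient (LinearMap.ker g)

end points

/-! ### the minimal equation -/

section minimal

variable {S : Set ℕ} {n : ℕ}

theorem tors_EF (hS : ∀ m ∈ S, Mu m) (hn : Cls0 n) (d : DecidableEq (fld S)) :
    Nat.card (@AddCommGroup.torsion (EF (fld S) (-(n : ℤ))).toAffine.Point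
      (@Affine.Point.instAddCommGroup (fld S) _ _ d)) = 4 := by
  obtain rfl : d = Classical.decEq (fld S) := Subsingleton.elim _ _
  have h60 := hn.2
  have h4 : (-(n : ℤ)) % 4 = 1 := by omega
  let _ : DecidableEq (fld S) := Classical.decEq (fld S)
  rw [Run7.h424.M6.card_tors ((vr (F := fld S) h4).equiv (EF_ne hn (fld S)))]
  refine card4 hn.1.ne_zero (A := (AddCommGroup.torsion (cv n (fld S)).toAffine.Point :
    Set (cv n (fld S)).toAffine.Point)) fun P => ⟨fun hP => two_of_tors hS hn P hP, fun hP => ?_⟩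
  have : IsOfFinAddOrder P :=
    isOfFinAddOrder_iff_nsmul_eq_zero.2 ⟨2, by norm_num, by rw [two_smul]; exact hP⟩
  exact this

theorem card_EF (hS : ∀ m ∈ S, Mu m) (hn : Cls0 n) (hg : GdS (fld S) n) :
    Nat.card (EF (fld S) (-(n : ℤ))).toAffine.Point = 4 := by
  have h60 := hn.2
  have h4 : (-(n : ℤ)) % 4 = 1 := by omega
  let _ : DecidableEq (fld S) := Classical.decEq (fld S)
  rw [Nat.card_congr ((vr (F := fld S) h4).equiv (EF_ne hn (fld S))).toEquiv,
    ← Nat.card_congr (Equiv.Set.univ _)]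
  exact card4 hn.1.ne_zero fun P => ⟨fun _ => all_two hS hn hg P, fun _ => Set.mem_univ _⟩

theorem fg_EF (hS : ∀ m ∈ S, Mu m) (hn : Cls0 n) (hg : AlS (fld S) n)
    (d : DecidableEq (fld S)) :
    @Module.Finite ℤ (EF (fld S) (-(n : ℤ))).toAffine.Point _
      (@Affine.Point.instAddCommGroup (fld S) _ _ d).toAddCommMonoid
      (@AddCommGroup.toIntModule _ (@Affine.Point.instAddCommGroup (fld S) _ _ d)) := by
  obtain rfl : d = Classical.decEq (fld S) := Subsingleton.elim _ _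
  have h60 := hn.2
  have h4 : (-(n : ℤ)) % 4 = 1 := by omega
  let _ : DecidableEq (fld S) := Classical.decEq (fld S)
  have h1 : Module.Finite ℤ (cv n (fld S)).toAffine.Point := fg_inf hS hn hg
  exact Module.Finite.equiv
    ((vr (F := fld S) h4).equiv (EF_ne hn (fld S))).toIntLinearEquiv.symm

theorem rank_EF (hS : ∀ m ∈ S, Mu m) (hn : Cls0 n) (hg : AlS (fld S) n)
    (d : DecidableEq (fld S)) (d' : DecidableEq ℚ) :
    @Module.rank ℤ (EF (fld S) (-(n : ℤ))).toAffine.Point _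
      (@Affine.Point.instAddCommGroup (fld S) _ _ d).toAddCommMonoid
      (@AddCommGroup.toIntModule _ (@Affine.Point.instAddCommGroup (fld S) _ _ d)) =
    @Module.rank ℤ (EF ℚ (-(n : ℤ))).toAffine.Point _
      (@Affine.Point.instAddCommGroup ℚ _ _ d').toAddCommMonoid
      (@AddCommGroup.toIntModule _ (@Affine.Point.instAddCommGroup ℚ _ _ d')) := by
  rw [rank_cv hn (fld S) d, rank_cv hn ℚ d']
  exact rank_inf hS hn hg

/-- the double of each point is rational -/
theorem dbl_EF (hS : ∀ m ∈ S, Mu m) (hn : Cls0 n) (hg : AlS (fld S) n)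
    [d : DecidableEq (fld S)] (P : (EF (fld S) (-(n : ℤ))).toAffine.Point) :
    P + P = 0 ∨ ∃ (x y : ℚ) (h : (EF (fld S) (-(n : ℤ))).toAffine.Nonsingular
      (x : fld S) (y : fld S)), P + P = Affine.Point.some _ _ h := by
  have key : ∀ [d : DecidableEq (fld S)] (R : (cv n (fld S)).toAffine.Point),
      ∃ Q : MP (cv n ℚ), R + R = inc n (algebraMap ℚ (fld S)) Q := by
    intro d R
    obtain rfl : d = Classical.decEq (fld S) := Subsingleton.elim _ _
    obtain ⟨Q, hQ⟩ := two_rat hS hn hg R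
    exact ⟨Q, hQ.symm⟩
  have h60 := hn.2
  have h4 : (-(n : ℤ)) % 4 = 1 := by omega
  set e := (vr (F := fld S) h4).equiv (EF_ne hn (fld S)) with he
  obtain ⟨Q, hQ⟩ := key (e P)
  have h1 : e (P + P) = inc n (algebraMap ℚ (fld S)) Q := by
    rw [map_add]
    exact hQ
  rcases hR : P + P with _ | ⟨X, Y, hXY⟩
  · exact Or.inl rfl
  · right
    rw [hR] at h1
    rcases Q with _ | ⟨a, b, hab⟩
    · exact absurd h1 (Affine.Point.some_ne_zero _)
    · have h2 : (2 : fld S) ^ 2 * X + (-(13 * n)) = algebraMap ℚ (fld S) a * 1 ^ 2 ∧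
          (2 : fld S) ^ 3 * Y + 2 ^ 2 * 1 * X + 4 = algebraMap ℚ (fld S) b * 1 ^ 3 :=
        pt_inj (W := cv n (fld S)) h1
      rw [eq_ratCast, eq_ratCast] at h2
      obtain ⟨h3, h5⟩ := h2
      have hx : (((a + 13 * n) / 4 : ℚ) : fld S) = X := by
        push_cast
        linear_combination (-1 / 4) * h3
      have hy : (((b - 4 - (a + 13 * n)) / 8 : ℚ) : fld S) = Y := by
        push_cast
        linear_combination (-1 / 8) * h5 + (1 / 8) * h3
      subst hx hy
      exact ⟨_, _, hXY, rfl⟩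

end minimal

end Run7.h428.X15
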