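import Pool.Agent.Run7.h428.NF.Stm
import Pool.Agent.W165.CE.FF

/-!
# Piece CNT: the points over a finite field with `p` or `p ^ 2` elements
-/

set_option autoImplicit false
set_option linter.unusedSectionVars false

namespace Run7.h428.X15.CN

open Polynomial Finset
open Pool.Agent.H341R2.Sharp
open Pool.Agent.H82R3.EK (luc luc_eq card_points)
open Pool.Agent.W97.MT (ap affCount)
open Pool.Agent.Y698 (AP)
open Run7.h428.NF
open Run7.h555.P15 (WT pts_cubic equation_iff)
open W165.CE (T_luc A_two_split)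

/-- the field with four elements -/
abbrev Q4 := QuadraticAlgebra (ZMod 2) 1 1

instance : Fintype Q4 := Fintype.ofEquiv _ (QuadraticAlgebra.equivProd (1 : ZMod 2) 1).symm

theorem c7 : Fintype.card {P : Q4 × Q4 // P.2 * P.2 + P.1 * P.2 + P.2 =
    P.1 * P.1 * P.1 + P.1 * P.1} = 7 := by
  decide

theorem c7' : Fintype.card {P : Q4 × Q4 // P.2 * P.2 + P.1 * P.2 + P.2 =
    P.1 * P.1 * P.1 + 1} = 7 := by
  decide

theorem card_Q4 : Fintype.card Q4 = 4 := by
  decide

/-- the number of the solutions over isomorphic rings -/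
theorem pts_equiv {R R' : Type} [CommRing R] [CommRing R'] (e : R ≃+* R') (D : ℤ) :
    Nat.card (AP ((WT D).map (Int.castRingHom R))) =
      Nat.card (AP ((WT D).map (Int.castRingHom R'))) := by
  refine Nat.card_congr (Equiv.subtypeEquiv (Equiv.prodCongr e.toEquiv e.toEquiv) fun P => ?_)
  rw [equation_iff, equation_iff]
  have h : (e.toEquiv P.2) ^ 2 + (e.toEquiv P.1) * (e.toEquiv P.2) + (e.toEquiv P.2) =
      (e.toEquiv P.1) ^ 3 + (((5 * D - 1) / 4 : ℤ) : R') * (e.toEquiv P.1) ^ 2 -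
        (((19 * D ^ 2 + 1) / 2 : ℤ) : R') * (e.toEquiv P.1) - (((39 * D ^ 3 + 1) / 4 : ℤ) : R') ↔
      e (P.2 ^ 2 + P.1 * P.2 + P.2) = e (P.1 ^ 3 + (((5 * D - 1) / 4 : ℤ) : R) * P.1 ^ 2 -
        (((19 * D ^ 2 + 1) / 2 : ℤ) : R) * P.1 - (((39 * D ^ 3 + 1) / 4 : ℤ) : R)) := by
    simp only [map_add, map_sub, map_mul, map_pow, map_intCast]
    rfl
  exact (e.injective.eq_iff.symm.trans h.symm)

variable {k : Type} [Field k]

/-- the field has characteristic `p` -/
theorem char_of [Finite k] {p f : ℕ} (hp : p.Prime) (hc : Nat.card k = p ^ f) (hf : 1 ≤ f) :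
    CharP k p := by
  have := Fintype.ofFinite k
  have h1 : ((Nat.card k : ℕ) : k) = 0 := by
    rw [Nat.card_eq_fintype_card]
    exact Nat.cast_card_eq_zero _
  rw [hc] at h1
  push_cast at h1
  have h2 : ((p : ℕ) : k) = 0 := (pow_eq_zero_iff (by omega)).1 h1
  exact (CharP.charP_iff_prime_eq_zero hp).2 h2

/-- one -/
theorem cnt_one [Finite k] {p : ℕ} (hp : p.Prime) (hc : Nat.card k = p) (D : ℤ) :
    (Nat.card k : ℤ) - Nat.card (AP ((WT D).map (Int.castRingHom k))) = ap (WT D) p := by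
  have : Fact p.Prime := ⟨hp⟩
  have := Fintype.ofFinite k
  have hcp : CharP k p := char_of hp (f := 1) (by rw [hc, pow_one]) le_rfl
  have e : ZMod p ≃+* k := ZMod.ringEquiv k (by rw [← Nat.card_eq_fintype_card, hc])
  rw [← pts_equiv e, hc]
  rfl

/-- odd characteristic -/
theorem cnt_odd [Finite k] {p f : ℕ} (hp : p.Prime) (hc : Nat.card k = p ^ f) (hf : 1 ≤ f)
    (hp2 : p ≠ 2) {D : ℤ} (hD : D % 4 = 1) (hpD : ¬ (p : ℤ) ∣ 15 * D) :
    (Nat.card k : ℤ) - Nat.card (AP ((WT D).map (Int.castRingHom k))) =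
      luc (ap (WT D) p) p f := by
  classical
  have : Fact p.Prime := ⟨hp⟩
  have := Fintype.ofFinite k
  have hcp : CharP k p := char_of hp hc hf
  let : Algebra (ZMod p) k := ZMod.algebra k p
  have hF : ringChar (ZMod p) ≠ 2 := by
    rw [ZMod.ringChar_zmod_n]; exact hp2
  have hfin : Module.finrank (ZMod p) k = f := by
    have h1 := Module.card_eq_pow_finrank (K := ZMod p) (V := k)
    rw [ZMod.card, ← Nat.card_eq_fintype_card, hc] at h1
    exact (Nat.pow_right_injective hp.two_le h1).symm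
  set g : (ZMod p)[X] := (X - C 0) * (X ^ 2 + C (-34 * (D : ZMod p)) * X + C (225 * (D : ZMod p) ^ 2))
    with hg
  have g1 : g = X ^ 3 + (C (-34 * (D : ZMod p)) * X ^ 2 + (C (225 * (D : ZMod p) ^ 2) * X + C 0)) := by
    rw [hg, C_0]
    ring
  have g3 : g = C 1 * X ^ 3 + C (-34 * (D : ZMod p)) * X ^ 2 + C (225 * (D : ZMod p) ^ 2) * X + C 0 := by
    rw [hg, C_0, C_1]
    ring
  have hdeg : g.natDegree = 3 := by
    rw [g3]
    exact natDegree_cubic one_ne_zero
  have hmon : g.Monic := by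
    unfold Polynomial.Monic
    rw [g3]
    exact leadingCoeff_cubic one_ne_zero
  have hcast : ∀ m : ℤ, ¬ (p : ℤ) ∣ m → ((m : ℤ) : ZMod p) ≠ 0 := by
    intro m hm h
    exact hm ((ZMod.intCast_zmod_eq_zero_iff_dvd m p).1 h)
  have hpZ := Nat.prime_iff_prime_int.1 hp
  have hD0 : ((D : ℤ) : ZMod p) ≠ 0 := hcast D fun h => hpD (h.mul_left 15)
  have h225 : ((225 : ℤ) : ZMod p) ≠ 0 := by
    refine hcast 225 fun h => hpD ?_
    have h1 : (p : ℤ) ∣ 15 ^ 2 := by norm_num; exact h
    exact (hpZ.dvd_of_dvd_pow h1).mul_right D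
  have h256 : ((256 : ℤ) : ZMod p) ≠ 0 := by
    refine hcast 256 fun h => hp2 ?_
    have h1 : (p : ℤ) ∣ 2 ^ 8 := by norm_num; exact h
    have h2 : p ∣ 2 := by exact_mod_cast hpZ.dvd_of_dvd_pow h1
    exact (Nat.prime_dvd_prime_iff_eq hp Nat.prime_two).1 h2
  push_cast at h225 h256
  have hA : A g 2 = Fintype.card (ZMod p) := by
    refine A_two_split hF 0 _ _ ?_ ?_
    · have e : (0 : ZMod p) ^ 2 + -34 * (D : ZMod p) * 0 + 225 * (D : ZMod p) ^ 2 =
          225 * (D : ZMod p) ^ 2 := by ring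
      rw [e]
      exact mul_ne_zero h225 (pow_ne_zero 2 hD0)
    · have e : (-34 * (D : ZMod p)) ^ 2 - 4 * (225 * (D : ZMod p) ^ 2) = 256 * (D : ZMod p) ^ 2 := by
        ring
      rw [e]
      exact mul_ne_zero h256 (pow_ne_zero 2 hD0)
  have key : ∀ {E : Type} [Field E] [Fintype E] [Algebra (ZMod p) E] [DecidableEq E],
      (Fintype.card E : ℤ) - Nat.card (AP ((WT D).map (Int.castRingHom E))) =
      - T g (Module.finrank (ZMod p) E) := by
    intro E _ _ _ _
    have hE : ringChar E ≠ 2 := by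
      rwa [← Algebra.ringChar_eq (ZMod p) E]
    have h2 : (2 : E) ≠ 0 := Ring.two_ne_zero hE
    have h1 : Nat.card (AP ((WT D).map (Int.castRingHom E))) =
        Nat.card {x : E × E // x.2 ^ 2 = x.1 * (x.1 - 9 * D) * (x.1 - 25 * D)} := pts_cubic hD E h2
    rw [h1, card_points hE (fun x => x * (x - 9 * (D : E)) * (x - 25 * (D : E))),
      T_eq_sum (E := E) hF]
    have : ∀ x : E, aeval x g = x * (x - 9 * (D : E)) * (x - 25 * (D : E)) := by
      intro x
      rw [hg]
      simp only [map_mul, map_sub, map_add, map_pow, aeval_X, map_zero, map_neg,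
        map_intCast, map_ofNat]
      ring
    simp_rw [this]
    ring
  have h1 := key (E := ZMod p)
  rw [Module.finrank_self] at h1
  have hap : ap (WT D) p = -T g 1 := by
    rw [← h1]
    rw [ZMod.card]
    rfl
  have h2 := key (E := k)
  rw [hfin] at h2
  rw [Nat.card_eq_fintype_card, h2, hap]
  obtain ⟨n, rfl⟩ : ∃ n, f = n + 1 := ⟨f - 1, by omega⟩
  rw [T_luc hF hdeg hmon n, hA, ZMod.card]
  ring

/-- the coefficients modulo two -/
theorem co1 (R : Type) [CommRing R] (h2 : (2 : R) = 0) (m : ℤ) :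
    (((5 * (8 * m + 1) - 1) / 4 : ℤ) : R) = 1 ∧ (((19 * (8 * m + 1) ^ 2 + 1) / 2 : ℤ) : R) = 0 ∧
      (((39 * (8 * m + 1) ^ 3 + 1) / 4 : ℤ) : R) = 0 := by
  refine ⟨?_, ?_, ?_⟩
  · have e : (5 * (8 * m + 1) - 1) / 4 = 2 * (5 * m) + 1 := by omega
    rw [e]
    push_cast
    rw [h2]
    ring
  · have e : (19 * (8 * m + 1) ^ 2 + 1) / 2 = 2 * (304 * m ^ 2 + 76 * m + 5) := by
      rw [show 19 * (8 * m + 1) ^ 2 + 1 = 2 * (2 * (304 * m ^ 2 + 76 * m + 5)) by ring]
      omega
    rw [e]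
    push_cast
    rw [h2]
    ring
  · have e : (39 * (8 * m + 1) ^ 3 + 1) / 4 =
        2 * (39 * (64 * m ^ 3 + 24 * m ^ 2 + 3 * m) + 5) := by
      rw [show 39 * (8 * m + 1) ^ 3 + 1 =
        4 * (2 * (39 * (64 * m ^ 3 + 24 * m ^ 2 + 3 * m) + 5)) by ring]
      omega
    rw [e]
    push_cast
    rw [h2]
    ring

theorem co5 (R : Type) [CommRing R] (h2 : (2 : R) = 0) (m : ℤ) :
    (((5 * (8 * m + 5) - 1) / 4 : ℤ) : R) = 0 ∧ (((19 * (8 * m + 5) ^ 2 + 1) / 2 : ℤ) : R) = 0 ∧
      (((39 * (8 * m + 5) ^ 3 + 1) / 4 : ℤ) : R) = 1 := by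
  refine ⟨?_, ?_, ?_⟩
  · have e : (5 * (8 * m + 5) - 1) / 4 = 2 * (5 * m + 3) := by omega
    rw [e]
    push_cast
    rw [h2]
    ring
  · have e : (19 * (8 * m + 5) ^ 2 + 1) / 2 = 2 * (304 * m ^ 2 + 380 * m + 119) := by
      rw [show 19 * (8 * m + 5) ^ 2 + 1 = 2 * (2 * (304 * m ^ 2 + 380 * m + 119)) by ring]
      omega
    rw [e]
    push_cast
    rw [h2]
    ring
  · have e : (39 * (8 * m + 5) ^ 3 + 1) / 4 =
        2 * (39 * (64 * m ^ 3 + 120 * m ^ 2 + 75 * m) + 609) + 1 := by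
      rw [show 39 * (8 * m + 5) ^ 3 + 1 =
        4 * (2 * (39 * (64 * m ^ 3 + 120 * m ^ 2 + 75 * m) + 609) + 1) by ring]
      omega
    rw [e]
    push_cast
    rw [h2]
    ring

theorem t3 : Fintype.card {P : ZMod 2 × ZMod 2 // P.2 * P.2 + P.1 * P.2 + P.2 =
    P.1 * P.1 * P.1 + P.1 * P.1} = 3 := by
  decide

theorem t1 : Fintype.card {P : ZMod 2 × ZMod 2 // P.2 * P.2 + P.1 * P.2 + P.2 =
    P.1 * P.1 * P.1 + 1} = 1 := by
  decide

theorem ap_two {D : ℤ} (hD : D % 4 = 1) : ap (WT D) 2 = -1 ∨ ap (WT D) 2 = 1 := by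
  have hq2 : (2 : ZMod 2) = 0 := by decide
  have h8 : D % 8 = 1 ∨ D % 8 = 5 := by omega
  rcases h8 with h8 | h8
  · left
    obtain ⟨m, rfl⟩ : ∃ m, D = 8 * m + 1 := ⟨D / 8, by omega⟩
    obtain ⟨a1, a2, a3⟩ := co1 (ZMod 2) hq2 m
    have h : affCount (WT (8 * m + 1)) 2 = 3 := by
      rw [← t3, ← Nat.card_eq_fintype_card]
      refine Nat.card_congr (Equiv.subtypeEquivRight fun P => ?_)
      rw [equation_iff, a1, a2, a3]
      constructor
      · intro h; linear_combination h
      · intro h; linear_combination h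
    unfold ap
    rw [h]
    norm_num
  · right
    obtain ⟨m, rfl⟩ : ∃ m, D = 8 * m + 5 := ⟨D / 8, by omega⟩
    obtain ⟨a1, a2, a3⟩ := co5 (ZMod 2) hq2 m
    have h : affCount (WT (8 * m + 5)) 2 = 1 := by
      rw [← t1, ← Nat.card_eq_fintype_card]
      refine Nat.card_congr (Equiv.subtypeEquivRight fun P => ?_)
      rw [equation_iff, a1, a2, a3]
      constructor
      · intro h; linear_combination h - hq2
      · intro h; linear_combination h + hq2
    unfold ap
    rw [h]
    norm_num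

/-- characteristic two, four elements -/
theorem cnt_four [Finite k] (hc : Nat.card k = 4) {D : ℤ} (hD : D % 4 = 1) :
    Nat.card (AP ((WT D).map (Int.castRingHom k))) = 7 := by
  classical
  have := Fintype.ofFinite k
  have hcp : CharP k 2 := char_of Nat.prime_two (f := 2) (by rw [hc]; norm_num) (by norm_num)
  let : Algebra (ZMod 2) k := ZMod.algebra k 2
  have hc' : Fintype.card k = 4 := by rw [← Nat.card_eq_fintype_card, hc]
  have h20 : (2 : k) = 0 := by exact_mod_cast CharP.cast_eq_zero k 2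
  -- a root of `w ^ 2 = w + 1`
  obtain ⟨w, hw0, hw1⟩ : ∃ w : k, w ≠ 0 ∧ w ≠ 1 := by
    by_contra hcon
    push Not at hcon
    have h1 : (univ : Finset k) ⊆ {0, 1} := by
      intro x _
      rw [mem_insert, mem_singleton]
      by_cases h0 : x = 0
      · exact Or.inl h0
      · exact Or.inr (hcon x h0)
    have h2 := card_le_card h1
    rw [card_univ, hc'] at h2
    have h3 := card_le_two (a := (0 : k)) (b := 1)
    omega
  have hw : w * w = w + 1 := by
    have h4 : w ^ 4 = w := by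
      have := FiniteField.pow_card w
      rwa [hc'] at this
    have h5 : w * (w - 1) * (w ^ 2 + w + 1) = 0 := by linear_combination h4
    rcases mul_eq_zero.1 h5 with h6 | h6
    · rcases mul_eq_zero.1 h6 with h7 | h7
      · exact absurd h7 hw0
      · exact absurd (sub_eq_zero.1 h7) hw1
    · linear_combination h6 - (w + 1) * h20
  let φ : Q4 →ₐ[ZMod 2] k := QuadraticAlgebra.lift ⟨w, by
    rw [one_smul, one_smul, hw]
    ring⟩
  have hφ : ∀ z : Q4, φ z = z.re • (1 : k) + z.im • w := fun z => rfl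
  have hsm : ∀ (a : ZMod 2) (x : k), a • x = 0 → a = 0 ∨ x = 0 := by
    intro a x h
    exact smul_eq_zero.1 h
  have hinj : Function.Injective φ := by
    rw [injective_iff_map_eq_zero]
    intro z hz
    rw [hφ] at hz
    have h01 : ∀ a : ZMod 2, a = 0 ∨ a = 1 := by decide
    ext
    · rcases h01 z.re with h1 | h1 <;> rcases h01 z.im with h2 | h2
      · exact h1
      · rw [h1, h2, zero_smul, one_smul, zero_add] at hz
        exact absurd hz hw0
      · rw [h1, h2, zero_smul, one_smul, add_zero] at hz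
        exact absurd hz one_ne_zero
      · rw [h1, h2, one_smul, one_smul] at hz
        exact absurd (by linear_combination hz - h20) hw1
    · rcases h01 z.re with h1 | h1 <;> rcases h01 z.im with h2 | h2
      · exact h2
      · rw [h1, h2, zero_smul, one_smul, zero_add] at hz
        exact absurd hz hw0
      · exact h2
      · rw [h1, h2, one_smul, one_smul] at hz
        exact absurd (by linear_combination hz - h20) hw1
  have hbij : Function.Bijective φ := by
    rw [Fintype.bijective_iff_injective_and_card]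
    exact ⟨hinj, by rw [card_Q4, hc']⟩
  have e : Q4 ≃+* k := RingEquiv.ofBijective φ hbij
  rw [← pts_equiv e]
  have hq2 : (2 : Q4) = 0 := by decide
  have h8 : D % 8 = 1 ∨ D % 8 = 5 := by omega
  rcases h8 with h8 | h8
  · obtain ⟨m, rfl⟩ : ∃ m, D = 8 * m + 1 := ⟨D / 8, by omega⟩
    obtain ⟨a1, a2, a3⟩ := co1 Q4 hq2 m
    rw [← c7, ← Nat.card_eq_fintype_card]
    refine Nat.card_congr (Equiv.subtypeEquivRight fun P => ?_)
    rw [equation_iff, a1, a2, a3]
    constructor
    · intro h; linear_combination h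
    · intro h; linear_combination h
  · obtain ⟨m, rfl⟩ : ∃ m, D = 8 * m + 5 := ⟨D / 8, by omega⟩
    obtain ⟨a1, a2, a3⟩ := co5 Q4 hq2 m
    rw [← c7', ← Nat.card_eq_fintype_card]
    refine Nat.card_congr (Equiv.subtypeEquivRight fun P => ?_)
    rw [equation_iff, a1, a2, a3]
    constructor
    · intro h; linear_combination h - hq2
    · intro h; linear_combination h + hq2

theorem t_CNT : S_CNT := by
  intro k _ _ p f D hp hc hf1 hf2 hD hpD
  by_cases hp2 : p = 2
  · subst hp2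
    rcases Nat.lt_or_ge f 2 with h | h
    · have hf : f = 1 := by omega
      subst hf
      rw [pow_one] at hc
      exact cnt_one Nat.prime_two hc D
    · have hf : f = 2 := by omega
      subst hf
      have h4 : Nat.card k = 4 := by rw [hc]; norm_num
      rw [cnt_four h4 hD, h4]
      have hap := ap_two hD
      show ((4 : ℕ) : ℤ) - ((7 : ℕ) : ℤ) = ap (WT D) 2 * ap (WT D) 2 - (2 : ℕ) * 2
      rcases hap with h | h <;> rw [h] <;> norm_num
  · exact cnt_odd hp hc hf1 hp2 hD hpD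

end Run7.h428.X15.CN
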