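import Pool.Agent.Run7.h428.NF.Stm
import Pool.Agent.Run7.h359.Ivr
import Pool.Agent.Run7.h483.NF.M15

/-!
# Piece GOOD: the places of good reduction
-/

set_option autoImplicit false
set_option linter.unusedSectionVars false

open NumberField IsDedekindDomain WeierstrassCurve Pool.Agent.W189.NF
open Pool.Agent.H921R2.TatePole Pool.Agent.H82R3.EK

namespace Run7.h428.X15

open Run7.h428.NF
open Run7.h555.P15 (WT)
open Pool.Agent.Y698 (AP)

variable {F : Type} [Field F] [NumberField F]

theorem unit_int (v : HeightOneSpectrum (𝓞 F)) {m : ℤ} (hm : ¬ ((below v : ℕ) : ℤ) ∣ m) :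
    IsUnit ((m : ℤ) : Ov v) := by
  obtain ⟨n1, n2, n3⟩ := nm_eq v
  by_contra hcon
  have h1 : IsLocalRing.residue (Ov v) ((m : ℤ) : Ov v) = 0 :=
    (IsLocalRing.residue_eq_zero_iff _).2 ((IsLocalRing.mem_maximalIdeal _).2 hcon)
  rw [map_intCast] at h1
  have hfin := finite_res v
  have hcard : Nat.card (IsLocalRing.ResidueField (Ov v)) = (below v : ℕ) ^ deg v := by
    rw [← n1]
    exact card_res v
  have h2 : ((below v : ℕ) : IsLocalRing.ResidueField (Ov v)) = 0 := by
    have h2 : ((Nat.card (IsLocalRing.ResidueField (Ov v)) : ℕ) :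
        IsLocalRing.ResidueField (Ov v)) = 0 := by
      have := Fintype.ofFinite (IsLocalRing.ResidueField (Ov v))
      rw [Nat.card_eq_fintype_card]
      exact Nat.cast_card_eq_zero _
    rw [hcard] at h2
    push_cast at h2
    exact (pow_eq_zero_iff n2.ne').1 h2
  have hcop : IsCoprime ((below v : ℕ) : ℤ) m :=
    (Nat.prime_iff_prime_int.1 (below v).2).coprime_iff_not_dvd.2 hm
  obtain ⟨s, t, hst⟩ := hcop
  have h3 := congrArg (fun z : ℤ => (z : IsLocalRing.ResidueField (Ov v))) hst
  push_cast at h3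
  rw [h1, h2, mul_zero, mul_zero, add_zero] at h3
  exact zero_ne_one h3

theorem WT_delta {D : ℤ} (hD : D % 4 = 1) : (WT D).Δ = 50625 * D ^ 6 :=
  (Run7.h483.NF.inv hD).2.2

theorem t_GOOD : S_GOOD := by
  intro hC F _ _ v D W C hD hv hdeg hW
  obtain ⟨n1, n2, n3⟩ := nm_eq v
  have hfin := finite_res v
  have hcard : Nat.card (IsLocalRing.ResidueField (Ov v)) = (below v : ℕ) ^ deg v := by
    rw [← n1]
    exact card_res v
  have hΔ : IsUnit ((WT D).map (Int.castRingHom (Ov v))).Δ := by
    rw [WeierstrassCurve.map_Δ, WT_delta hD, eq_intCast]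
    refine unit_int v fun h => hv ?_
    have hp := Nat.prime_iff_prime_int.1 (below v).2
    rcases hp.dvd_mul.1 h with h1 | h1
    · have h2 : ((below v : ℕ) : ℤ) ∣ 15 ^ 4 := h1
      exact hp.dvd_of_dvd_pow h2 |>.mul_right _
    · exact dvd_mul_of_dvd_right (hp.dvd_of_dvd_pow h1) _
  have hW' : (C.map (algebraMap F (v.adicCompletion F))) • (W.baseChange (v.adicCompletion F)) =
      ((WT D).map (Int.castRingHom (Ov v))).map (algebraMap (Ov v) (v.adicCompletion F)) := by
    unfold WeierstrassCurve.baseChange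
    rw [WeierstrassCurve.map_variableChange, hW, WeierstrassCurve.map_map,
      WeierstrassCurve.map_map]
    congr 1
    exact RingHom.ext_int _ _
  obtain ⟨a1, a2⟩ := Run7.h359.FE.min_count' (v.adicCompletionIntegers F) hΔ hW'
  unfold aV eV
  rw [a1, a2]
  have e : (((WT D).map (Int.castRingHom (Ov v))).map (IsLocalRing.residue (Ov v))) =
      (WT D).map (Int.castRingHom (IsLocalRing.ResidueField (Ov v))) := by
    rw [WeierstrassCurve.map_map]
    congr 1
  constructor
  · have h1 := hC (IsLocalRing.ResidueField (Ov v)) (below v : ℕ) (deg v) D (below v).2 hcard n2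
      hdeg hD hv
    rw [← h1, ← e]
  · have h3 : Nat.card (IsLocalRing.ResidueField (v.adicCompletionIntegers F)) =
        (below v : ℕ) ^ deg v := hcard
    rw [h3]
    exact Nat.cast_pow _ _

end Run7.h428.X15
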