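import Pool.Agent.Run7.h428.X15.Fin
import Pool.Agent.Run7.h428.OddM

/-!
# Number fields inside the field generated by the square roots of the products of two elements

After `Run7/h428/Kept/TowersFromDenseSets`.
-/

set_option autoImplicit false
set_option linter.unusedSectionVars false

open scoped Classical symmDiff

namespace Run7.h428.X15

open NumberField WeierstrassCurve
open Run7.h428.NF Run7.h428.Kum Run7.h428.MixG Run7.h428.OddG
open Run7.h428.Uni (W mem_W W_empty W_congr W_insert symm_cancel)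
open Pool.Agent.Run7.h843.G (Nf)
open Pool.Agent.Run7.h238.J (tw)
open Pool.Agent.N969.P15 (Cls0 Qc)

/-- the field generated by the square roots of the products `d i * d k`, `i, k ∈ I` -/
noncomputable def pf (d : ℕ → ℕ) (I : Set ℕ) : IntermediateField ℚ ℂ :=
  IntermediateField.adjoin ℚ {z : ℂ | ∃ i ∈ I, ∃ k ∈ I, z ^ 2 = (d i : ℂ) * (d k : ℂ)}

variable {d : ℕ → ℕ} {I : Set ℕ}

theorem pf_eq (d : ℕ → ℕ) (I : Set ℕ) :
    pf d I = fld {x : ℕ | ∃ i ∈ I, ∃ k ∈ I, x = d i * d k} := by
  unfold pf fld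
  congr 1
  ext z
  constructor
  · rintro ⟨i, hi, k, hk, hz⟩
    exact ⟨d i * d k, ⟨i, hi, k, hk, rfl⟩, by push_cast; exact hz⟩
  · rintro ⟨_, ⟨i, hi, k, hk, rfl⟩, hz⟩
    exact ⟨i, hi, k, hk, by rw [hz]; push_cast; rfl⟩

/-- a product and its mask -/
theorem prod_mask (hd : ∀ i, Cl (d i)) (T : Finset ℕ) :
    ∃ k : ℕ, 0 < k ∧ ∏ i ∈ T, d i = (∏ p ∈ W (fun i => (d i).primeFactors) T, p) * k ^ 2 := by
  induction T using Finset.induction_on with
  | empty =>
    refine ⟨1, one_pos, ?_⟩
    rw [W_empty]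
    simp
  | insert a T ha ih =>
    obtain ⟨k, hk, h1⟩ := ih
    have h2 := prod_sd (d a).primeFactors (W (fun i => (d i).primeFactors) T)
    rw [Nat.prod_primeFactors_of_squarefree (hd a).1] at h2
    refine ⟨(∏ p ∈ (d a).primeFactors ∩ W (fun i => (d i).primeFactors) T, p) * k,
      Nat.mul_pos (Finset.prod_pos fun p hp => ?_) hk, ?_⟩
    · exact (Nat.prime_of_mem_primeFactors (Finset.mem_inter.1 hp).1).pos
    · rw [Finset.prod_insert ha, h1, W_insert ha, ← mul_assoc, ← h2]
      ring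

theorem am_W (hd : ∀ i, Cl (d i)) {T : Finset ℕ} (he : Even T.card) :
    am (W (fun i => (d i).primeFactors) T) :=
  (isLaw.adm_W (u := fun i => (d i).primeFactors) T fun i _ => od_cl (hd i)).1 he

/-- a finite product of products of pairs is, up to squares, the product over an even set -/
theorem even_prod (T : Finset (ℕ × ℕ)) (hT : ∀ q ∈ T, q.1 ∈ I ∧ q.2 ∈ I) (hd : ∀ i, d i ≠ 0) :
    ∃ T' : Finset ℕ, (∀ i ∈ T', i ∈ I) ∧ Even T'.card ∧
    ∃ k : ℕ, 0 < k ∧ ∏ q ∈ T, d q.1 * d q.2 = (∏ i ∈ T', d i) * k ^ 2 := by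
  have key : ∀ (T : Finset ℕ) (i : ℕ), i ∈ I → (∀ i ∈ T, i ∈ I) →
      ∃ T' : Finset ℕ, (∀ i ∈ T', i ∈ I) ∧ (Even T'.card ↔ ¬ Even T.card) ∧
      ∃ k : ℕ, 0 < k ∧ d i * ∏ i ∈ T, d i = (∏ i ∈ T', d i) * k ^ 2 := by
    intro T i hiI hTI
    by_cases hi : i ∈ T
    · refine ⟨T.erase i, fun j hj => hTI j (Finset.mem_of_mem_erase hj), ?_, d i,
        Nat.pos_of_ne_zero (hd i), ?_⟩
      · rw [Finset.card_erase_of_mem hi]
        have : 0 < T.card := Finset.card_pos.2 ⟨i, hi⟩
        obtain ⟨n, hn⟩ : ∃ n, T.card = n + 1 := ⟨T.card - 1, by omega⟩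
        rw [hn, Nat.add_sub_cancel, Nat.even_add_one, not_not]
      · rw [← Finset.mul_prod_erase T d hi]
        ring
    · refine ⟨insert i T, fun j hj => ?_, ?_, 1, one_pos, ?_⟩
      · rcases Finset.mem_insert.1 hj with rfl | hj
        · exact hiI
        · exact hTI j hj
      · rw [Finset.card_insert_of_notMem hi, Nat.even_add_one]
      · rw [Finset.prod_insert hi]
        ring
  induction T using Finset.induction_on with
  | empty => exact ⟨∅, by simp, by simp, 1, one_pos, by simp⟩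
  | insert q T hq ih =>
    obtain ⟨T', hI', hT', k, hk, h1⟩ := ih fun q hq => hT q (Finset.mem_insert_of_mem hq)
    have hqI := hT q (Finset.mem_insert_self q T)
    obtain ⟨T1, hI1, hT1, k1, hk1, h2⟩ := key T' q.2 hqI.2 hI'
    obtain ⟨T2, hI2, hT2, k2, hk2, h3⟩ := key T1 q.1 hqI.1 hI1
    refine ⟨T2, hI2, ?_, k * k1 * k2, by positivity, ?_⟩
    · rw [hT2, hT1, not_not]
      exact hT'
    · rw [Finset.prod_insert hq, h1]
      calc _ = d q.1 * (d q.2 * ∏ i ∈ T', d i) * k ^ 2 := by ring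
        _ = (d q.1 * ∏ i ∈ T1, d i) * k1 ^ 2 * k ^ 2 := by rw [h2]; ring
        _ = _ := by rw [h3]; ring

/-- the square roots in the field -/
theorem sqrt_pf (hd : ∀ i, Cl (d i)) {m : ℕ} (hm : Squarefree m)
    (hz : ∃ z ∈ pf d I, z ^ 2 = (m : ℂ)) : ∃ T : Finset ℕ, (∀ i ∈ T, i ∈ I) ∧ Even T.card ∧
      m = ∏ p ∈ W (fun i => (d i).primeFactors) T, p := by
  obtain ⟨z, hz, hzm⟩ := hz
  rw [pf_eq] at hz
  obtain ⟨T, hT, r, hr⟩ := sqrt_mem_inf _ hz hzm
  have h1 : ∀ e ∈ T, ∃ q : ℕ × ℕ, (q.1 ∈ I ∧ q.2 ∈ I) ∧ d q.1 * d q.2 = e := by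
    intro e he
    obtain ⟨i, hi, k, hk, h⟩ := hT he
    exact ⟨(i, k), ⟨hi, hk⟩, h.symm⟩
  choose! f hf1 hf using h1
  have hinj : Set.InjOn f (T : Set ℕ) := by
    intro a ha b hb hab
    rw [← hf a ha, ← hf b hb, hab]
  obtain ⟨T', hI', hT', k, hk, h2⟩ := even_prod (I := I) (T.image f) (by
    intro q hq
    obtain ⟨e, he, rfl⟩ := Finset.mem_image.1 hq
    exact hf1 e he) fun i => (hd i).1.ne_zero
  rw [Finset.prod_image hinj, Finset.prod_congr rfl hf] at h2
  refine ⟨T', hI', hT', ?_⟩
  obtain ⟨k', hk', h3⟩ := prod_mask hd T'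
  have ham := am_W hd hT'
  refine sqf_eq hm (sqf_ms ham.1) ?_
  have h4 : (m * ∏ p ∈ W (fun i => (d i).primeFactors) T', p) * (k' * k) ^ 2 = r * r := by
    rw [← hr, h2, h3]
    ring
  have h5 : k' * k ∣ r := (Nat.pow_dvd_pow_iff two_ne_zero).1
    ⟨m * ∏ p ∈ W (fun i => (d i).primeFactors) T', p, by
      rw [pow_two r, ← h4]
      ring⟩
  obtain ⟨t, rfl⟩ := h5
  refine ⟨t, ?_⟩
  have h6 : 0 < (k' * k) ^ 2 := by positivity
  apply Nat.eq_of_mul_eq_mul_right h6
  rw [h4]
  ring

/-- the multipliers with square roots in `M` -/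
def rad (M : IntermediateField ℚ ℂ) : Set ℕ := {m | Mu m ∧ ∃ z ∈ M, z ^ 2 = (m : ℂ)}

theorem le_rad {M : IntermediateField ℚ ℂ} {z : ℂ} (hz : z ∈ M) {T : Finset ℕ}
    (he : Even T.card) (hd : ∀ i, Cl (d i)) {a b : ℕ} (ha : 0 < a) (hb : 0 < b)
    (h : z ^ 2 * (a : ℂ) ^ 2 = ((∏ i ∈ T, d i : ℕ) : ℂ) * (b : ℂ) ^ 2) : z ∈ fld (rad M) := by
  obtain ⟨k, hk, h1⟩ := prod_mask hd T
  have ham := am_W hd he
  have h2 : Mu (∏ p ∈ W (fun i => (d i).primeFactors) T, p) := ⟨sqf_ms ham.1, ham.2⟩
  set P := ∏ p ∈ W (fun i => (d i).primeFactors) T, p with hP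
  have hb' : (b : ℂ) ≠ 0 := by exact_mod_cast hb.ne'
  have hk' : (k : ℂ) ≠ 0 := by exact_mod_cast hk.ne'
  have ha' : (a : ℂ) ≠ 0 := by exact_mod_cast ha.ne'
  have h3 : (z * a / (k * b)) ^ 2 = (P : ℂ) := by
    rw [h1] at h
    push_cast at h
    field_simp
    linear_combination h
  have h4 : z * a / (k * b) ∈ M := M.div_mem (M.mul_mem hz (M.natCast_mem a))
    (M.mul_mem (M.natCast_mem k) (M.natCast_mem b))
  have h5 : z * a / (k * b) ∈ fld (rad M) := sqrt_in (S := rad M) (d := P) ⟨h2, _, h4, h3⟩ h3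
  have h6 : z = z * a / (k * b) * (k * b) / a := by
    field_simp
  rw [h6]
  exact (fld _).div_mem ((fld _).mul_mem h5 ((fld _).mul_mem ((fld _).natCast_mem k)
    ((fld _).natCast_mem b))) ((fld _).natCast_mem a)

theorem pf_le (hd : ∀ i, Cl (d i)) : pf d I ≤ fld (rad (pf d I)) := by
  have h0 : IntermediateField.adjoin ℚ {z : ℂ | ∃ i ∈ I, ∃ k ∈ I, z ^ 2 = (d i : ℂ) * (d k : ℂ)} ≤
      fld (rad (pf d I)) := by
    rw [IntermediateField.adjoin_le_iff]
    rintro z ⟨i, hi, j, hj, hz⟩
    have hzM : z ∈ pf d I := IntermediateField.subset_adjoin ℚ _ ⟨i, hi, j, hj, hz⟩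
    by_cases hij : i = j
    · refine le_rad hzM (T := ∅) (by simp) hd (a := 1) (b := d i) one_pos
        (Nat.pos_of_ne_zero (hd i).1.ne_zero) ?_
      rw [hz, hij]
      simp
      ring
    · refine le_rad hzM (T := {i, j}) (by rw [Finset.card_pair hij]; exact even_two) hd (a := 1)
        (b := 1) one_pos one_pos ?_
      rw [hz, Finset.prod_pair hij]
      push_cast
      ring
  exact h0

/-- the number fields in `pf d I` -/
theorem sub_pf (hd : ∀ i, Cl (d i)) (F : IntermediateField ℚ ℂ) [NumberField F]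
    (hF : F ≤ pf d I) : ∃ S₁ : Finset ℕ, (∀ m ∈ S₁, Mu m) ∧ F = fld (S₁ : Set ℕ) :=
  sub_of (S := rad (pf d I)) (fun _ hm => hm.1) F (hF.trans (pf_le hd))

theorem qc_of {m : Finset ℕ} (hm : 1 < ∏ p ∈ m, p) (h : RN m 0) : Qc (∏ p ∈ m, p) := by
  unfold RN at h
  rw [zero_add, pow_one] at h
  exact (Pool.Agent.Run7.h289.D18.Nf_two hm).1 h

/-- the twists of `n` are good -/
theorem al_pf (hd : ∀ i, Cl (d i)) {n : ℕ} (hn : Cl n)
    (h : ∀ T : Finset ℕ, (∀ i ∈ T, i ∈ I) → T.Nonempty → Even T.card →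
      RN (n.primeFactors ∆ W (fun i => (d i).primeFactors) T) 0) : AlS (pf d I) n := by
  intro m hm hm1 hz
  obtain ⟨T, hTI, hT, hmT⟩ := sqrt_pf hd hm hz
  have ham := am_W hd hT
  have hne : T.Nonempty := by
    rw [Finset.nonempty_iff_ne_empty]
    rintro rfl
    rw [W_empty, Finset.prod_empty] at hmT
    exact hm1 hmT
  have h1 := h T hTI hne hT
  rw [hmT, ← tn_tw hn.1 ham.1]
  have h2 := tn_mod (T := W (fun i => (d i).primeFactors) T) hn.1 hn.2 ham.1 ham.2
  unfold tn at h2 ⊢
  refine qc_of ?_ h1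
  omega

/-- the degrees -/
theorem deg_pf (hd : ∀ i, Cl (d i))
    (hW : ∀ T T' : Finset ℕ, W (fun i => (d i).primeFactors) T =
      W (fun i => (d i).primeFactors) T' → T = T') (n : ℕ) :
    Module.finrank ℚ (pf d {i | i ≤ n}) = 2 ^ n := by
  set S : Finset ℕ := ((Finset.range (n + 1)).powerset.filter fun T => Even T.card).image
    fun T => ∏ p ∈ W (fun i => (d i).primeFactors) T, p with hS
  have hSm : ∀ m ∈ S, Mu m := by
    intro m hm
    obtain ⟨T, hT, rfl⟩ := Finset.mem_image.1 hm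
    have ham := am_W hd (Finset.mem_filter.1 hT).2
    exact ⟨sqf_ms ham.1, ham.2⟩
  -- square roots of the elements of `S`
  have hin : ∀ T ⊆ Finset.range (n + 1), Even T.card → ∃ z ∈ pf d {i | i ≤ n},
      z ^ 2 = ((∏ p ∈ W (fun i => (d i).primeFactors) T, p : ℕ) : ℂ) := by
    intro T hT he
    obtain ⟨k, hk, h1⟩ := prod_mask hd T
    -- the square root of `∏ d i`
    have h2 : ∃ z ∈ pf d {i | i ≤ n}, z ^ 2 = ((∏ i ∈ T, d i : ℕ) : ℂ) := by
      have key : ∀ m : ℕ, ∀ T ⊆ Finset.range (n + 1), T.card = 2 * m →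
          ∃ z ∈ pf d {i | i ≤ n}, z ^ 2 = ((∏ i ∈ T, d i : ℕ) : ℂ) := by
        intro m
        induction m with
        | zero =>
          intro T _ hc
          rw [mul_zero, Finset.card_eq_zero] at hc
          exact ⟨1, (pf d _).one_mem, by rw [hc]; simp⟩
        | succ m ih =>
          intro T hT hc
          obtain ⟨i, hi⟩ : T.Nonempty := Finset.card_pos.1 (by omega)
          obtain ⟨j, hj⟩ : (T.erase i).Nonempty := Finset.card_pos.1 (by
            rw [Finset.card_erase_of_mem hi]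
            omega)
          obtain ⟨z, hz, hz2⟩ := ih ((T.erase i).erase j)
            ((Finset.erase_subset _ _).trans ((Finset.erase_subset _ _).trans hT)) (by
              rw [Finset.card_erase_of_mem hj, Finset.card_erase_of_mem hi]
              omega)
          obtain ⟨w, hw⟩ := exists_sqrt (d i * d j)
          have hiI : i ≤ n := Nat.lt_succ_iff.1 (Finset.mem_range.1 (hT hi))
          have hjI : j ≤ n := Nat.lt_succ_iff.1 (Finset.mem_range.1
            (hT (Finset.mem_of_mem_erase hj)))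
          have hwM : w ∈ pf d {i | i ≤ n} :=
            IntermediateField.subset_adjoin ℚ _ ⟨i, hiI, j, hjI, by rw [hw]; push_cast; rfl⟩
          refine ⟨w * z, (pf d _).mul_mem hwM hz, ?_⟩
          rw [mul_pow, hw, hz2, ← Finset.mul_prod_erase T d hi,
            ← Finset.mul_prod_erase (T.erase i) d hj]
          push_cast
          ring
      obtain ⟨m, hm⟩ := he
      exact key m T hT (by omega)
    obtain ⟨z, hz, hz2⟩ := h2
    have hk' : (k : ℂ) ≠ 0 := by exact_mod_cast hk.ne'
    refine ⟨z / k, (pf d _).div_mem hz ((pf d _).natCast_mem k), ?_⟩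
    rw [div_pow, hz2, h1]
    push_cast
    field_simp
  have hfield : pf d {i | i ≤ n} = fld (S : Set ℕ) := by
    apply le_antisymm
    · unfold pf
      rw [IntermediateField.adjoin_le_iff]
      rintro z ⟨i, hi, j, hj, hz⟩
      have hi' : i ≤ n := hi
      have hj' : j ≤ n := hj
      by_cases hij : i = j
      · have h1 : (z - d i) * (z + d i) = 0 := by
          rw [← hij] at hz
          linear_combination hz
        rcases mul_eq_zero.1 h1 with h2 | h2
        · rw [sub_eq_zero.1 h2]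
          exact (fld _).natCast_mem _
        · rw [eq_neg_of_add_eq_zero_left h2]
          exact (fld _).neg_mem ((fld _).natCast_mem _)
      · have hTs : ({i, j} : Finset ℕ) ⊆ Finset.range (n + 1) := by
          intro x hx
          rw [Finset.mem_insert, Finset.mem_singleton] at hx
          rw [Finset.mem_range]
          rcases hx with rfl | rfl <;> omega
        obtain ⟨k, hk, h1⟩ := prod_mask hd {i, j}
        have hk' : (k : ℂ) ≠ 0 := by exact_mod_cast hk.ne'
        have h2 : (∏ p ∈ W (fun i => (d i).primeFactors) {i, j}, p) ∈ (S : Set ℕ) := by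
          rw [Finset.mem_coe, hS]
          refine Finset.mem_image.2 ⟨{i, j}, Finset.mem_filter.2 ⟨Finset.mem_powerset.2 hTs, ?_⟩, rfl⟩
          rw [Finset.card_pair hij]
          exact even_two
        have h3 : (z / k) ^ 2 = ((∏ p ∈ W (fun i => (d i).primeFactors) {i, j}, p : ℕ) : ℂ) := by
          rw [Finset.prod_pair hij] at h1
          have h4 := congrArg (Nat.cast : ℕ → ℂ) h1
          push_cast at h4
          rw [div_pow, hz, h4]
          push_cast
          field_simp
        have h4 := sqrt_in h2 h3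
        have h5 : z = z / k * k := by field_simp
        rw [h5]
        exact (fld _).mul_mem h4 ((fld _).natCast_mem k)
    · unfold fld
      rw [IntermediateField.adjoin_le_iff]
      rintro z ⟨m, hm, hz⟩
      rw [Finset.mem_coe] at hm
      obtain ⟨T, hT, rfl⟩ := Finset.mem_image.1 hm
      rw [Finset.mem_filter, Finset.mem_powerset] at hT
      obtain ⟨w, hw, hw2⟩ := hin T hT.1 hT.2
      have h1 : (z - w) * (z + w) = 0 := by linear_combination hz - hw2
      rcases mul_eq_zero.1 h1 with h2 | h2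
      · rw [sub_eq_zero.1 h2]
        exact hw
      · rw [eq_neg_of_add_eq_zero_left h2]
        exact (pf d _).neg_mem hw
  obtain ⟨r, h⟩ := mq hSm
  rw [hfield, h.finrank_eq]
  have hHF : HF (fld (S : Set ℕ)) S =
      ((Finset.range (n + 1)).powerset.filter fun T => Even T.card).image
        (W fun i => (d i).primeFactors) := by
    ext T'
    rw [mem_HF, Finset.mem_image]
    constructor
    · rintro ⟨hT', hz⟩
      have hpr : ∀ l ∈ T', l.Prime := by
        intro l hl
        obtain ⟨m, -, hl'⟩ := Finset.mem_biUnion.1 (hT' hl)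
        exact Nat.prime_of_mem_primeFactors hl'
      have h1 : ∃ z ∈ pf d {i | i ≤ n}, z ^ 2 = ((∏ l ∈ T', l : ℕ) : ℂ) := by
        rw [hfield]
        exact (sqrt_iff S _).2 hz
      obtain ⟨T, hTI, hTe, hTm⟩ := sqrt_pf hd (sqf_ms hpr) h1
      refine ⟨T, Finset.mem_filter.2 ⟨Finset.mem_powerset.2 fun i hi => ?_, hTe⟩, ?_⟩
      · have h2 : i ≤ n := hTI i hi
        exact Finset.mem_range.2 (by omega)
      · rw [← Nat.primeFactors_prod hpr, hTm, Nat.primeFactors_prod (am_W hd hTe).1]
    · rintro ⟨T, hT, rfl⟩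
      have hT2 := (Finset.mem_filter.1 hT).2
      have ham := am_W hd hT2
      have hmS : (∏ p ∈ W (fun i => (d i).primeFactors) T, p) ∈ S := Finset.mem_image_of_mem _ hT
      refine ⟨fun p hp => Finset.mem_biUnion.2 ⟨_, hmS, ?_⟩, gen1 S _ hmS⟩
      rw [Nat.primeFactors_prod ham.1]
      exact hp
  rw [hHF, Finset.card_image_of_injective _ fun T T' he => hW T T' he]
  -- the even subsets
  have hbij : ((Finset.range (n + 1)).powerset.filter fun T => Even T.card).card =
      ((Finset.range n).powerset).card := by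
    refine Finset.card_bij' (fun T _ => T.erase n)
      (fun T _ => if Even T.card then T else insert n T) ?_ ?_ ?_ ?_
    · intro T hT
      rw [Finset.mem_filter, Finset.mem_powerset] at hT
      rw [Finset.mem_powerset]
      intro i hi
      rw [Finset.mem_erase] at hi
      have := Finset.mem_range.1 (hT.1 hi.2)
      exact Finset.mem_range.2 (by omega)
    · intro T hT
      rw [Finset.mem_powerset] at hT
      have hn : n ∉ T := fun h => lt_irrefl _ (Finset.mem_range.1 (hT h))
      have hT' : T ⊆ Finset.range (n + 1) := hT.trans (Finset.range_subset_range.2 (by omega))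
      rw [Finset.mem_filter, Finset.mem_powerset]
      by_cases he : Even T.card
      · rw [if_pos he]
        exact ⟨hT', he⟩
      · rw [if_neg he]
        refine ⟨Finset.insert_subset (Finset.mem_range.2 (by omega)) hT', ?_⟩
        rw [Finset.card_insert_of_notMem hn, Nat.even_add_one]
        exact he
    · intro T hT
      rw [Finset.mem_filter, Finset.mem_powerset] at hT
      by_cases hn : n ∈ T
      · have h1 : (T.erase n).card + 1 = T.card := Finset.card_erase_add_one hn
        have h2 : ¬ Even (T.erase n).card := by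
          intro h3
          have := hT.2
          rw [← h1, Nat.even_add_one] at this
          exact this h3
        rw [if_neg h2, Finset.insert_erase hn]
      · rw [Finset.erase_eq_of_notMem hn, if_pos hT.2]
    · intro T hT
      rw [Finset.mem_powerset] at hT
      have hn : n ∉ T := fun h => lt_irrefl _ (Finset.mem_range.1 (hT h))
      by_cases he : Even T.card
      · rw [if_pos he, Finset.erase_eq_of_notMem hn]
      · rw [if_neg he, Finset.erase_insert hn]
  rw [hbij, Finset.card_powerset, Finset.card_range]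

end Run7.h428.X15
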