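import Pool.Agent.Run7.h428.NF.PP
import Pool.Agent.Run7.h428.NF.Tn
import Pool.Agent.Run7.h555.P15.Ltw
import Pool.Agent.Run7.h209.P15.M23
import Pool.Agent.W189.NF.LSer
import Pool.Agent.Run7.h483.NF.MUL
import Pool.Agent.Run7.h483.NF.M15
import Pool.Agent.Run7.h921.NF.ADD
import Pool.Agent.Run7.h921.NF.ISO

/-!
# The L-function over the field as a product of L-functions over the rational numbers

After `Run7/h401/MQ/Lf` (helper401).
-/

set_option autoImplicit false
set_option linter.unusedSectionVars false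

open NumberField IsDedekindDomain WeierstrassCurve Pool.Agent.W189.NF
open Pool.Agent.H921R2.TatePole Pool.Agent.H82R3.EK
open scoped symmDiff

namespace Run7.h428.X15

open Run7.h428.NF
open Run7.h555.P15 (WT CI)
open Pool.Agent.N969.P15 (Cls0 Qc)

theorem eul_eq (n : ℕ) (s : ℂ) (p : ℕ) : eul (-(n : ℤ)) s p = Run7.h555.P15.eul n s p := by
  unfold eul Run7.h555.P15.eul
  have h : ((p : ℤ) ∣ 15 * -(n : ℤ)) ↔ p ∣ 15 * n := by
    rw [mul_neg, dvd_neg]
    exact_mod_cast Int.natCast_dvd_natCast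
  rw [if_congr h rfl rfl]

theorem ex_L {n : ℕ} (hn : Cls0 n) : ∃ G : ℂ → ℂ, Differentiable ℂ G ∧
    (∀ s : ℂ, 3 / 2 < s.re →
      HasProd (fun p : Nat.Primes => eul (-(n : ℤ)) s p) (G s)) ∧ (Qc n → G 1 ≠ 0) := by
  obtain ⟨L, Op, Om, _, hOm, g2, g3, hL⟩ := Run7.h209.P15.m_lat
  obtain ⟨G, hG, hprod, e, he, y, hy, hodd, hval⟩ :=
    Run7.h555.P15.center hOm g2 g3 hL (n := n) hn
  refine ⟨G, hG, fun s hs => ?_, fun hq h0 => ?_⟩
  · have h1 := hprod s hs
    have h2 : (fun p : ℕ => if p.Prime then Run7.h555.P15.eul n s p else 1) =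
        Set.mulIndicator {p : ℕ | p.Prime} (fun p => eul (-(n : ℤ)) s p) := by
      funext p
      by_cases hp : p.Prime
      · rw [if_pos hp, Set.mulIndicator_of_mem (show p ∈ {p : ℕ | p.Prime} from hp), eul_eq]
      · rw [if_neg hp, Set.mulIndicator_of_notMem (show p ∉ {p : ℕ | p.Prime} from hp)]
    rw [h2] at h1
    exact hasProd_subtype_iff_mulIndicator.2 h1
  · have hy0 : y ≠ 0 := by
      rintro rfl
      have := hodd.2 hq
      exact absurd this (by decide)
    rw [h0] at hval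
    have h3 : (e * Om * (2 ^ n.primeFactors.card * y) ^ 2 : ℝ) = 0 := by
      have h4 : ((e * Om * (2 ^ n.primeFactors.card * y) ^ 2 : ℝ) : ℂ) = 0 := by
        rw [← hval]
        ring
      exact_mod_cast h4
    have he0 : e ≠ 0 := by rcases he with h | h <;> rw [h] <;> norm_num
    have hyr : (y : ℝ) ≠ 0 := by exact_mod_cast hy0
    have : (e * Om * (2 ^ n.primeFactors.card * y) ^ 2 : ℝ) ≠ 0 := by positivity
    exact this h3

open Classical in
/-- the entire continuation of the L-function over `ℚ` -/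
noncomputable def Lq (n : ℕ) : ℂ → ℂ := if h : Cls0 n then (ex_L h).choose else fun _ => 1

theorem Lq_spec {n : ℕ} (hn : Cls0 n) : Differentiable ℂ (Lq n) ∧
    (∀ s : ℂ, 3 / 2 < s.re → HasProd (fun p : Nat.Primes => eul (-(n : ℤ)) s p) (Lq n s)) ∧
    (Qc n → Lq n 1 ≠ 0) := by
  unfold Lq
  rw [dif_pos hn]
  exact (ex_L hn).choose_spec

theorem Lq_diff (n : ℕ) : Differentiable ℂ (Lq n) := by
  by_cases h : Cls0 n
  · exact (Lq_spec h).1
  · unfold Lq
    rw [dif_neg h]
    exact differentiable_const _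

variable {F : Type} [Field F] [NumberField F] {H : Finset (Finset ℕ)} {r : Finset ℕ → F}

/-- **the L-function over the field** -/
theorem lser' (hPP : S_PP) (hG : S_GOOD) (hC : S_CNT) (h : MQ F H r) {n : ℕ} (hn : Cls0 n) {s : ℂ}
    (hs : 2 < s.re) : ∏ T ∈ H, Lq (tn n T) s = (EF F (-(n : ℤ))).LSeries s := by
  classical
  have hs' : 3 / 2 < s.re := by linarith
  have h1 : HasProd (fun q : Nat.Primes => ∏ T ∈ H, eul (-(tn n T : ℤ)) s q)
      (∏ T ∈ H, Lq (tn n T) s) := hasProd_prod fun T hT =>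
    (Lq_spec ⟨tn_sqf (h.pr T hT), tn_mod hn.1 hn.2 (h.pr T hT) (h.m60 T hT)⟩).2.1 s hs'
  have hpp := hPP Run7.h483.NF.t_M15 hG Run7.h921.NF.t_ADD Run7.h921.NF.t_ISO Run7.h483.NF.t_MUL hC
    F H r h n hn.1 hn.2 s
  have e1 : (fun q : Nat.Primes => ∏ T ∈ H, eul (-(tn n T : ℤ)) s q) = fun q : Nat.Primes =>
      ∏ v : {v : HeightOneSpectrum (𝓞 F) // below v = q}, LF (EF F (-(n : ℤ))) s v.1 := by
    funext q
    rw [← hpp q, finprod_eq_prod_of_fintype]
  rw [e1] at h1
  have h2 := (LSeries_hasProd (EF F (-(n : ℤ))) hs).2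
  have h3 := (Equiv.sigmaFiberEquiv (below (K := F))).hasProd_iff.2 h2
  have h4 := h3.sigma (g := fun q : Nat.Primes =>
    ∏ v : {v : HeightOneSpectrum (𝓞 F) // below v = q}, LF (EF F (-(n : ℤ))) s v.1)
    (fun q => hasProd_fintype _)
  exact h1.unique h4

end Run7.h428.X15
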