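import Pool.Agent.Run7.h921.NF.RK

/-!
# The rank over the field is the rank over `ℚ`, if the twisted parts are finite

After `Run7/h921/NF/RK` (helper921) and `Run7/h401/MQ/Rk` (helper401).
-/

set_option autoImplicit false
set_option linter.unusedSectionVars false

open scoped symmDiff

namespace Run7.h428.X15

open WeierstrassCurve
open Run7.h428.NF Run7.h921.NF
open Pool.Agent.Y682 Pool.Agent.TH841.NF

variable {F : Type} [Field F] [NumberField F] {H : Finset (Finset ℕ)} {r : Finset ℕ → F}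

/-- a non-zero multiple of each point comes from the rational numbers -/
theorem mult_mem (h : MQ F H r) {n : ℕ} (hn : Squarefree n)
    (hf : ∀ T ∈ H, T ≠ ∅ → Finite (MP (cv (tn n T) ℚ))) : ∃ c : ℤ, c ≠ 0 ∧
      ∀ P : MP (cv n F), ∃ Q : MP (cv (tn n ∅) ℚ), mu (sc_tw h h.emp hn) Q = c • P := by
  classical
  have hG := h.isGalois
  let proj : Finset ℕ → MP (cv n F) → MP (cv n F) := fun T P => ∑ σ : F ≃ₐ[ℚ] F, sg r T σ • ga n σ P
  have hpr : ∀ T ∈ H, ∀ (τ : F ≃ₐ[ℚ] F) (P : MP (cv n F)),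
      ga n τ (proj T P) = sg r T τ • proj T P := by
    intro T hT τ P
    simp only [proj]
    rw [map_sum, Finset.smul_sum]
    rw [← Equiv.sum_comp (Equiv.mulLeft τ) (fun σ => sg r T τ • (sg r T σ • ga n σ P))]
    refine Finset.sum_congr rfl fun σ _ => ?_
    rw [map_zsmul, Equiv.coe_mulLeft, ga_mul, sg_mul h hT, smul_smul, ← mul_assoc]
    have : sg r T τ * sg r T τ = 1 := by
      rcases sg_cases r T τ with h2 | h2 <;> rw [h2] <;> norm_num
    rw [this, one_mul]
  have hsum : ∀ P : MP (cv n F), ∑ T ∈ H, proj T P = (H.card : ℤ) • P := by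
    intro P
    simp only [proj]
    rw [Finset.sum_comm]
    have h1 : ∀ σ : F ≃ₐ[ℚ] F, ∑ T ∈ H, sg r T σ • ga n σ P = (∑ T ∈ H, sg r T σ) • ga n σ P :=
      fun σ => (Finset.sum_smul).symm
    rw [Finset.sum_congr rfl (fun σ _ => h1 σ), Finset.sum_eq_single (1 : F ≃ₐ[ℚ] F)]
    · rw [ga_one]
      congr 1
      have : ∀ T ∈ H, sg r T (1 : F ≃ₐ[ℚ] F) = 1 := by
        intro T hT
        apply sg_uniq h hT
        simp
      rw [Finset.sum_congr rfl this]
      simp
    · intro σ _ hσ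
      rw [orth h hσ, zero_smul]
    · exact fun h => absurd (Finset.mem_univ _) h
  have htor : ∀ T ∈ H.erase ∅, ∃ c : ℤ, c ≠ 0 ∧ ∀ P : MP (cv n F), c • proj T P = 0 := by
    intro T hT
    obtain ⟨hT0, hT⟩ := Finset.mem_erase.1 hT
    have := hf T hT hT0
    refine ⟨(Nat.card (MP (cv (tn n T) ℚ)) : ℤ), ?_, fun P => ?_⟩
    · exact_mod_cast Nat.card_pos.ne'
    · obtain ⟨Q, hQ⟩ := desc h hT hn fun σ => hpr T hT σ P
      rw [← hQ, ← map_zsmul, natCast_zsmul, card_nsmul_eq_zero', map_zero]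
  choose! c hc0 hc using htor
  have hN : (∏ T ∈ H.erase ∅, c T) * (H.card : ℤ) ≠ 0 := by
    refine mul_ne_zero (Finset.prod_ne_zero_iff.2 hc0) ?_
    have : 0 < H.card := Finset.card_pos.2 ⟨∅, h.emp⟩
    exact_mod_cast this.ne'
  refine ⟨_, hN, fun P => ?_⟩
  obtain ⟨Q, hQ⟩ := desc h h.emp hn fun σ => hpr ∅ h.emp σ P
  refine ⟨(∏ T ∈ H.erase ∅, c T) • Q, ?_⟩
  have h0 : (∏ T ∈ H.erase ∅, c T) • ∑ T ∈ H.erase ∅, proj T P = 0 := by
    rw [Finset.smul_sum]
    refine Finset.sum_eq_zero fun T hT => ?_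
    rw [← Finset.prod_erase_mul _ c hT, mul_smul, hc T hT, smul_zero]
  rw [map_zsmul, hQ, mul_smul, ← hsum, ← Finset.add_sum_erase H (fun T => proj T P) h.emp, smul_add,
    h0, add_zero]

theorem mu_inj {k k' : Type} [Field k] [Field k'] {ι : k →+* k'} {u : k'} {W : WeierstrassCurve k}
    {W' : WeierstrassCurve k'} (S : Sc ι u W W') : Function.Injective (mu S) := by
  rw [injective_iff_map_eq_zero]
  intro P hP
  rcases P with _ | ⟨x, y, h⟩
  · rfl
  · exact absurd hP (Affine.Point.some_ne_zero _)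

theorem tn_emp {n : ℕ} (hn : Squarefree n) : tn n ∅ = n := by
  unfold tn
  have : n.primeFactors ∆ ∅ = n.primeFactors := symmDiff_bot _
  rw [this, Nat.prod_primeFactors_of_squarefree hn]

/-- **the rank over the field** -/
theorem rank_eq' (h : MQ F H r) {n : ℕ} (hn : Squarefree n)
    (hf : ∀ T ∈ H, T ≠ ∅ → Finite (MP (cv (tn n T) ℚ))) :
    Module.rank ℤ (MP (cv n F)) = Module.rank ℤ (MP (cv n ℚ)) := by
  obtain ⟨c, hc0, hc⟩ := mult_mem h hn hf
  have h1 : Module.rank ℤ (MP (cv n F)) = Module.rank ℤ (MP (cv (tn n ∅) ℚ)) := by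
    set f := (mu (sc_tw h h.emp hn)).toIntLinearMap with hfd
    have hinj : Function.Injective f := mu_inj (sc_tw h h.emp hn)
    have h2 := _root_.rank_quotient_add_rank_of_isDomain (LinearMap.range f)
    have h3 : Module.rank ℤ (MP (cv n F) ⧸ LinearMap.range f) = 0 := by
      rw [rank_eq_zero_iff]
      intro x
      obtain ⟨P, rfl⟩ := Submodule.Quotient.mk_surjective _ x
      refine ⟨c, hc0, ?_⟩
      rw [← Submodule.Quotient.mk_smul, Submodule.Quotient.mk_eq_zero]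
      obtain ⟨Q, hQ⟩ := hc P
      exact ⟨Q, hQ⟩
    rw [h3, zero_add] at h2
    rw [← h2]
    exact (LinearEquiv.ofInjective f hinj).symm.rank_eq
  rw [h1, tn_emp hn]

end Run7.h428.X15
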