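import Pool.Agent.Run7.h428.Kum
import Pool.Agent.Run7.h428.NF.Mk
import Pool.Agent.Run7.h428.NF.Tn

/-!
# Fields generated by square roots of the multipliers for `X_0(15)`, and their subfields

After `Pool/Agent/Results/MP_cd906c_nt/TwistsMultiquadraticX49` (helper401) and `Run7/h428/Sub`.
-/

set_option autoImplicit false

open scoped Classical

namespace Run7.h428.X15

open NumberField
open Run7.h428.Kum Run7.h428.NF

/-- the multipliers -/
def Mu (m : ℕ) : Prop := Squarefree m ∧ (m % 60 = 1 ∨ m % 60 = 49)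

theorem gens_finite (S : Finset ℕ) : {z : ℂ | ∃ d ∈ (S : Set ℕ), z ^ 2 = (d : ℂ)}.Finite := by
  have h : {z : ℂ | ∃ d ∈ (S : Set ℕ), z ^ 2 = (d : ℂ)} =
      ⋃ d ∈ (S : Set ℕ), {z : ℂ | z ^ 2 = (d : ℂ)} := by
    ext z
    simp
  rw [h]
  refine Set.Finite.biUnion S.finite_toSet fun d _ => ?_
  have hp : (Polynomial.X ^ 2 - Polynomial.C (d : ℂ)) ≠ 0 :=
    Polynomial.X_pow_sub_C_ne_zero (by norm_num) _
  refine (Polynomial.finite_setOfPred_isRoot hp).subset fun z hz => ?_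
  have hz' : z ^ 2 = (d : ℂ) := hz
  show Polynomial.IsRoot _ z
  simp [Polynomial.IsRoot, hz']

instance finDim (S : Finset ℕ) : FiniteDimensional ℚ (fld (S : Set ℕ)) := by
  have hf : Finite {z : ℂ | ∃ d ∈ (S : Set ℕ), z ^ 2 = (d : ℂ)} := gens_finite S
  refine IntermediateField.finiteDimensional_adjoin
    (S := {z : ℂ | ∃ d ∈ (S : Set ℕ), z ^ 2 = (d : ℂ)}) ?_
  rintro z ⟨d, -, hz⟩
  refine ⟨Polynomial.X ^ 2 - Polynomial.C (d : ℚ), Polynomial.monic_X_pow_sub_C _ (by norm_num), ?_⟩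
  rw [← Polynomial.aeval_def]
  simp [hz]

instance numField (S : Finset ℕ) : NumberField (fld (S : Set ℕ)) where
  to_charZero := inferInstance
  to_finiteDimensional := finDim S

theorem gen1 (S : Finset ℕ) : ∀ d ∈ S, ∃ z : fld (S : Set ℕ), z ^ 2 = (d : fld (S : Set ℕ)) := by
  intro d hd
  obtain ⟨z, hz⟩ := IsAlgClosed.exists_pow_nat_eq (d : ℂ) (n := 2) (by norm_num)
  refine ⟨⟨z, IntermediateField.subset_adjoin ℚ _ ⟨d, hd, hz⟩⟩, ?_⟩
  apply Subtype.ext
  push_cast
  exact hz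

theorem gen2 (S : Finset ℕ) (K : Subfield (fld (S : Set ℕ)))
    (hK : ∀ d ∈ S, ∀ z : fld (S : Set ℕ), z ^ 2 = (d : fld (S : Set ℕ)) → z ∈ K) : K = ⊤ := by
  have hle : fld (S : Set ℕ) ≤
      (K.map (algebraMap (fld (S : Set ℕ)) ℂ)).toIntermediateField (K := ℚ)
      (fun x => by
        have : algebraMap ℚ ℂ x = ((x : ℚ) : ℂ) := rfl
        rw [this]
        exact SubfieldClass.ratCast_mem _ x) := by
    unfold fld
    rw [IntermediateField.adjoin_le_iff]
    rintro z ⟨d, hd, hz⟩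
    have hzF : z ∈ fld (S : Set ℕ) := IntermediateField.subset_adjoin ℚ _ ⟨d, hd, hz⟩
    refine ⟨⟨z, hzF⟩, hK d (Finset.mem_coe.1 hd) ⟨z, hzF⟩ ?_, rfl⟩
    apply Subtype.ext
    push_cast
    exact hz
  rw [eq_top_iff]
  rintro x -
  obtain ⟨y, hy, hyx⟩ := hle x.2
  have : y = x := Subtype.ext hyx
  rw [← this]
  exact hy

theorem sqrt_iff (S : Finset ℕ) (m : ℕ) :
    (∃ z ∈ fld (S : Set ℕ), z ^ 2 = (m : ℂ)) ↔
      ∃ z : fld (S : Set ℕ), z ^ 2 = (m : fld (S : Set ℕ)) := by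
  constructor
  · rintro ⟨z, hz, h⟩
    refine ⟨⟨z, hz⟩, ?_⟩
    apply Subtype.ext
    push_cast
    exact h
  · rintro ⟨z, h⟩
    refine ⟨z, z.2, ?_⟩
    have := congrArg (algebraMap (fld (S : Set ℕ)) ℂ) h
    rw [map_pow, map_natCast] at this
    exact this

theorem key60s : ∀ a < 60, ∀ b ∈ [1, 49], ∀ d ∈ [1, 49],
    a * b % 60 = d → a = 1 ∨ a = 49 := by decide

theorem prod60 {T : Finset ℕ} (h : ∀ m ∈ T, Mu m) :
    (∏ m ∈ T, m) % 60 = 1 ∨ (∏ m ∈ T, m) % 60 = 49 := by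
  induction T using Finset.induction_on with
  | empty => left; simp
  | insert a T ha ih =>
    rw [Finset.prod_insert ha, Nat.mul_mod]
    have h1 := ih fun m hm => h m (Finset.mem_insert_of_mem hm)
    have h2 := (h a (Finset.mem_insert_self a T)).2
    rcases h1 with h1 | h1 <;> rcases h2 with h2 | h2 <;> rw [h1, h2] <;> norm_num

/-- a squarefree number in the square class of a product of multipliers -/
theorem mu_of_sq {m P : ℕ} (hm : Squarefree m) (hP : P % 60 = 1 ∨ P % 60 = 49)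
    (h : IsSquare (m * P)) : m % 60 = 1 ∨ m % 60 = 49 := by
  obtain ⟨r, hr⟩ := h
  have h1 : m ∣ r := by
    have h2 : m ∣ r ^ 2 := ⟨P, by rw [sq, hr]⟩
    exact (hm.dvd_pow_iff_dvd two_ne_zero).1 h2
  obtain ⟨t, rfl⟩ := h1
  have hm0 : 0 < m := Nat.pos_of_ne_zero hm.ne_zero
  have h3 : P = m * t ^ 2 := by
    apply Nat.eq_of_mul_eq_mul_left hm0
    rw [hr]
    ring
  have hPc : Nat.Coprime P 60 := cop60 (by rcases hP with h | h <;> tauto)
  have htc : Nat.Coprime t 60 := Nat.Coprime.coprime_dvd_left ⟨m * t, by rw [h3]; ring⟩ hPc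
  have h4 := sq60 htc
  have h5 : m * t ^ 2 % 60 = P % 60 := by rw [h3]
  rw [Nat.mul_mod] at h5
  refine key60s _ (Nat.mod_lt _ (by norm_num)) (t ^ 2 % 60) ?_ (P % 60) ?_ h5
  · simpa using h4
  · simpa using hP

/-- the squarefree numbers with square roots in a field generated by square roots of multipliers -/
theorem mu_of_sqrt {S : Set ℕ} (hS : ∀ m ∈ S, Mu m) {m : ℕ} (hm : Squarefree m)
    (hz : ∃ z ∈ fld S, z ^ 2 = (m : ℂ)) : Mu m := by
  obtain ⟨z, hz, h⟩ := hz
  obtain ⟨T, hT, hsq⟩ := sqrt_mem_inf S hz h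
  exact ⟨hm, mu_of_sq hm (prod60 fun d hd => hS d (hT hd)) hsq⟩

theorem sqf_pr {T : Finset ℕ} (hT : ∀ l ∈ T, l.Prime) : Squarefree (∏ l ∈ T, l) := by
  refine Finset.squarefree_prod_of_pairwise_isCoprime (fun a ha b hb hab => ?_)
    fun l hl => (hT l hl).squarefree
  exact Nat.coprime_iff_isRelPrime.1 ((Nat.coprime_primes (hT a ha) (hT b hb)).2 hab)

/-- the structure of the field -/
theorem mq {S : Finset ℕ} (hS : ∀ m ∈ S, Mu m) :
    ∃ r, MQ (fld (S : Set ℕ)) (HF (fld (S : Set ℕ)) S) r := by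
  refine exists_MQ (fld (S : Set ℕ)) S (fun d hd => (hS d hd).1) (fun T hT hz => ?_) (gen1 S)
    (gen2 S)
  exact (mu_of_sqrt (S := (S : Set ℕ)) (fun m hm => hS m hm) (sqf_pr hT)
    ((sqrt_iff S _).2 hz)).2

/-- the subfields of a field generated by square roots -/
theorem sub_fld {S₀ : Finset ℕ} (hS₀ : ∀ d ∈ S₀, Mu d)
    (F : IntermediateField ℚ ℂ) (hF : F ≤ fld (S₀ : Set ℕ)) :
    ∃ S : Finset ℕ, (∀ m ∈ S, Mu m) ∧ F = fld (S : Set ℕ) := by
  obtain ⟨r, h⟩ := mq hS₀
  set H := HF (fld (S₀ : Set ℕ)) S₀ with hH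
  have hG : IsGalois ℚ (fld (S₀ : Set ℕ)) := h.isGalois
  set F' : IntermediateField ℚ (fld (S₀ : Set ℕ)) := F.comap (fld (S₀ : Set ℕ)).val with hF'
  have memF' : ∀ x : fld (S₀ : Set ℕ), x ∈ F' ↔ (x : ℂ) ∈ F := fun x => Iff.rfl
  have hsqC : ∀ T ∈ H, ((r T : fld (S₀ : Set ℕ)) : ℂ) ^ 2 = ((∏ l ∈ T, l : ℕ) : ℂ) := by
    intro T hT
    have h1 := congrArg (fun x : fld (S₀ : Set ℕ) => (x : ℂ)) (h.sq T hT)
    simpa using h1
  set S : Finset ℕ := (H.filter fun T => ((r T : fld (S₀ : Set ℕ)) : ℂ) ∈ F).image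
    fun T => ∏ l ∈ T, l with hS
  have hli : LinearIndependent ℚ (fun T : H => r T) := by
    apply linearIndependent_of_top_le_span_of_card_eq_finrank
    · have e : Set.range (fun T : H => r T) = r '' (H : Set (Finset ℕ)) := by
        ext x
        simp
      rw [e, h.span_top]
    · rw [h.finrank_eq, Fintype.card_coe]
  refine ⟨S, ?_, le_antisymm ?_ ?_⟩
  · intro m hm
    obtain ⟨T, hT, rfl⟩ := Finset.mem_image.1 hm
    have hT' := (Finset.mem_filter.1 hT).1
    exact ⟨sqf_pr (h.pr T hT'), h.m60 T hT'⟩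
  · intro x hx
    have hxL : x ∈ fld (S₀ : Set ℕ) := hF hx
    set x' : fld (S₀ : Set ℕ) := ⟨x, hxL⟩ with hx'
    have hx'F : x' ∈ F' := hx
    have h1 : x' ∈ Submodule.span ℚ (Set.range fun T : H => r T) := by
      have e : Set.range (fun T : H => r T) = r '' (H : Set (Finset ℕ)) := by
        ext x
        simp
      rw [e, h.span_top]
      trivial
    obtain ⟨a, ha⟩ := (Submodule.mem_span_range_iff_exists_fun ℚ).1 h1
    have key : ∀ T : H, a T ≠ 0 → r T ∈ F' := by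
      intro T hT
      rw [← IsGalois.fixedField_fixingSubgroup F', IntermediateField.mem_fixedField_iff]
      intro σ hσ
      have h2 : σ x' = x' := (IntermediateField.mem_fixingSubgroup_iff F' σ).1 hσ x' hx'F
      rw [← ha, map_sum, ha] at h2
      have h2b : ∑ T : H, a T • σ (r T) = ∑ T : H, a T • r T := by
        rw [← ha] at h2
        rw [← h2]
        refine Finset.sum_congr rfl fun T _ => ?_
        rw [Algebra.smul_def, Algebra.smul_def, map_mul, AlgEquiv.commutes]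
      have h3 : ∑ T : H, (a T * (if σ (r T) = r T then 0 else 2)) • r T = 0 := by
        have h4 : ∀ T : H, (a T * (if σ (r T) = r T then (0 : ℚ) else 2)) • r T =
            a T • r T - a T • σ (r T) := by
          intro T
          by_cases hs : σ (r T) = r T
          · rw [if_pos hs, hs]
            simp
          · have hs' : σ (r T) = -r T := (h.sgn σ T.2).resolve_left hs
            rw [if_neg hs, hs', mul_smul, two_smul, smul_add, smul_neg]
            abel
        rw [Finset.sum_congr rfl fun T _ => h4 T, Finset.sum_sub_distrib, h2b, sub_self]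
      have h5 := (Fintype.linearIndependent_iff.1 hli) _ h3 T
      by_contra hs
      rw [if_neg hs] at h5
      exact hT (by linarith)
    have hx2 : x = ∑ T : H, (a T : ℂ) * ((r T : fld (S₀ : Set ℕ)) : ℂ) := by
      have h2 := congrArg (fun x : fld (S₀ : Set ℕ) => (x : ℂ)) ha
      simp only [hx'] at h2
      rw [← h2]
      push_cast
      refine Finset.sum_congr rfl fun T _ => ?_
      rw [Algebra.smul_def]
      rfl
    rw [hx2]
    refine sum_mem fun T _ => ?_
    by_cases hT : a T = 0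
    · rw [hT]
      simp
    · have hr : ((r T : fld (S₀ : Set ℕ)) : ℂ) ∈ F := key T hT
      refine mul_mem ((fld _).algebraMap_mem (a T)) (sqrt_in (d := ∏ l ∈ (T : Finset ℕ), l) ?_
        (hsqC T T.2))
      rw [Finset.mem_coe, hS]
      exact Finset.mem_image.2 ⟨T, Finset.mem_filter.2 ⟨T.2, hr⟩, rfl⟩
  · unfold fld
    rw [IntermediateField.adjoin_le_iff]
    rintro z ⟨m, hm, hz⟩
    rw [Finset.mem_coe] at hm
    obtain ⟨T, hT, rfl⟩ := Finset.mem_image.1 hm
    obtain ⟨hT1, hT2⟩ := Finset.mem_filter.1 hT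
    have h1 : (z - (r T : fld (S₀ : Set ℕ))) * (z + (r T : fld (S₀ : Set ℕ))) = 0 := by
      linear_combination hz - hsqC T hT1
    rcases mul_eq_zero.1 h1 with h2 | h2
    · have : z = ((r T : fld (S₀ : Set ℕ)) : ℂ) := by linear_combination h2
      rw [this]
      exact hT2
    · have : z = -((r T : fld (S₀ : Set ℕ)) : ℂ) := by linear_combination h2
      rw [this]
      exact F.neg_mem hT2

/-- a finite subfield of a field generated by square roots -/
theorem sub_inf (S : Set ℕ) (F : IntermediateField ℚ ℂ) [NumberField F] (hF : F ≤ fld S) :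
    ∃ S₀ : Finset ℕ, (S₀ : Set ℕ) ⊆ S ∧ F ≤ fld (S₀ : Set ℕ) := by
  have hfg : F.FG := IntermediateField.essFiniteType_iff.1 inferInstance
  obtain ⟨B, hB⟩ := hfg
  have h1 : ∀ x ∈ B, ∃ S₁ : Finset ℕ, (S₁ : Set ℕ) ⊆ S ∧ x ∈ fld (S₁ : Set ℕ) := by
    intro x hx
    have hxF : x ∈ fld S := hF (by
      rw [← hB]
      exact IntermediateField.subset_adjoin ℚ _ hx)
    obtain ⟨G, hG1, hG2⟩ := IntermediateField.exists_finset_of_mem_adjoin hxF
    have h2 : ∀ y ∈ G, ∃ e ∈ S, y ^ 2 = (e : ℂ) := fun y hy => hG1 hy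
    choose! f hf1 hf2 using h2
    refine ⟨G.image f, ?_, ?_⟩
    · intro e he
      obtain ⟨y, hy, rfl⟩ := Finset.mem_image.1 (Finset.mem_coe.1 he)
      exact hf1 y hy
    · refine (IntermediateField.adjoin_le_iff.2 ?_) hG2
      intro y hy
      exact sqrt_in (by exact_mod_cast Finset.mem_image_of_mem f hy) (hf2 y hy)
  choose! g hg1 hg2 using h1
  refine ⟨B.biUnion g, ?_, ?_⟩
  · intro e he
    obtain ⟨x, hx, he⟩ := Finset.mem_biUnion.1 (Finset.mem_coe.1 he)
    exact hg1 x hx he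
  · rw [← hB, IntermediateField.adjoin_le_iff]
    intro x hx
    exact fld_mono (by exact_mod_cast Finset.subset_biUnion_of_mem g hx) (hg2 x hx)

/-- a number field in a field generated by square roots of multipliers is of this kind -/
theorem sub_of {S : Set ℕ} (hS : ∀ m ∈ S, Mu m) (F : IntermediateField ℚ ℂ) [NumberField F]
    (hF : F ≤ fld S) : ∃ S₁ : Finset ℕ, (∀ m ∈ S₁, Mu m) ∧ F = fld (S₁ : Set ℕ) := by
  obtain ⟨S₀, h1, h2⟩ := sub_inf S F hF
  exact sub_fld (fun m hm => hS m (h1 hm)) F h2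

theorem alg_fld (S : Set ℕ) {x : ℂ} (hx : x ∈ fld S) : _root_.IsIntegral ℚ x := by
  have h1 : Algebra.IsAlgebraic ℚ (fld S) := by
    unfold fld
    refine IntermediateField.isAlgebraic_adjoin ?_
    rintro z ⟨d, -, hz⟩
    refine ⟨Polynomial.X ^ 2 - Polynomial.C (d : ℚ), Polynomial.monic_X_pow_sub_C _ (by norm_num),
      ?_⟩
    rw [← Polynomial.aeval_def]
    simp [hz]
  have h2 : IsAlgebraic ℚ (⟨x, hx⟩ : fld S) := h1.isAlgebraic _
  have h3 : IsAlgebraic ℚ x := by
    have := h2.algebraMap (A := ℂ)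
    exact this
  exact h3.isIntegral

end Run7.h428.X15
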