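import Pool.Agent.Run7.h428.X15.Lser
import Pool.Agent.Run7.h428.X15.Good
import Pool.Agent.Run7.h428.X15.Cnt
import Pool.Agent.Run7.h428.X15.Rkg
import Pool.Agent.Run7.h428.X15.Sub
import Pool.Agent.Run7.h424.DC.Fin

/-!
# The order and the rank over the field
-/

set_option autoImplicit false
set_option linter.unusedSectionVars false

open NumberField IsDedekindDomain WeierstrassCurve
open scoped symmDiff

namespace Run7.h428.X15

open Run7.h428.NF Run7.h428.Kum
open Run7.h921.NF (cv vr EF_Δ)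
open Pool.Agent.Y682 (MP)
open Run7.h555.P15 (WT)
open Pool.Agent.N969.P15 (Cls0 Qc)

section

variable {F : Type} [Field F] [NumberField F] {H : Finset (Finset ℕ)} {r : Finset ℕ → F}

/-- **the L-function over the field** -/
theorem lser (h : MQ F H r) {n : ℕ} (hn : Cls0 n) {s : ℂ} (hs : 2 < s.re) :
    ∏ T ∈ H, Lq (tn n T) s = (EF F (-(n : ℤ))).LSeries s :=
  lser' (t_PP Run7.h209.P15.m_min) t_GOOD CN.t_CNT h hn hs

theorem mqQ : MQ ℚ {∅} (fun _ => (1 : ℚ)) where
  pr := by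
    intro T hT l hl
    rw [Finset.mem_singleton.1 hT] at hl
    exact absurd hl (Finset.notMem_empty l)
  m60 := by
    intro T hT
    rw [Finset.mem_singleton.1 hT]
    left
    simp
  emp := Finset.mem_singleton_self _
  sd := by
    intro T hT T' hT'
    rw [Finset.mem_singleton.1 hT, Finset.mem_singleton.1 hT', symmDiff_self]
    exact Finset.mem_singleton_self _
  sq := by
    intro T hT
    rw [Finset.mem_singleton.1 hT]
    simp
  gen := fun K _ => Subsingleton.elim _ _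

/-- the L-function over `ℚ` -/
theorem lserQ {n : ℕ} (hn : Cls0 n) {s : ℂ} (hs : 2 < s.re) :
    Lq n s = (EF ℚ (-(n : ℤ))).LSeries s := by
  rw [← lser mqQ hn hs, Finset.prod_singleton, tn_emp hn.1]

theorem prod_diff (H : Finset (Finset ℕ)) (n : ℕ) :
    Differentiable ℂ fun s => ∏ T ∈ H, Lq (tn n T) s :=
  Differentiable.fun_finsetProd fun T _ => Lq_diff (tn n T)

theorem cls_tn (h : MQ F H r) {n : ℕ} (hn : Cls0 n) {T : Finset ℕ} (hT : T ∈ H) :
    Cls0 (tn n T) := ⟨tn_sqf (h.pr T hT), tn_mod hn.1 hn.2 (h.pr T hT) (h.m60 T hT)⟩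

/-- the order of vanishing -/
theorem ord_eq (h : MQ F H r) {n : ℕ} (hn : Cls0 n)
    (hg : ∀ T ∈ H, T ≠ ∅ → Qc (tn n T)) :
    analyticOrderAt (fun s => ∏ T ∈ H, Lq (tn n T) s) 1 = analyticOrderAt (Lq n) 1 := by
  classical
  have e : (fun s => ∏ T ∈ H, Lq (tn n T) s) =
      (Lq n) * fun s => ∏ T ∈ H.erase ∅, Lq (tn n T) s := by
    funext s
    rw [Pi.mul_apply, ← Finset.mul_prod_erase H _ h.emp, tn_emp hn.1]
  have h1 : AnalyticAt ℂ (Lq n) 1 := (Lq_diff n).analyticAt 1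
  have h2 : AnalyticAt ℂ (fun s => ∏ T ∈ H.erase ∅, Lq (tn n T) s) 1 :=
    (prod_diff (H.erase ∅) n).analyticAt 1
  rw [e, analyticOrderAt_mul h1 h2]
  have h3 : analyticOrderAt (fun s => ∏ T ∈ H.erase ∅, Lq (tn n T) s) 1 = 0 := by
    rw [analyticOrderAt_eq_zero]
    right
    refine Finset.prod_ne_zero_iff.2 fun T hT => ?_
    obtain ⟨hT0, hT⟩ := Finset.mem_erase.1 hT
    exact (Lq_spec (cls_tn h hn hT)).2.2 (hg T hT hT0)
  rw [h3, add_zero]

/-- the finiteness over `ℚ` -/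
theorem fin_of {n : ℕ} (hn : Cls0 n) (hq : Qc n) : Finite (MP (cv n ℚ)) := by
  have h1 := ((Run7.h424.DC.iffF hn.1 hn.2 rfl).2 hq).1
  have e : (⟨0, ((34 * (n : ℤ) : ℤ) : ℚ), 0, ((225 * (n : ℤ) ^ 2 : ℤ) : ℚ), 0⟩ :
      WeierstrassCurve ℚ) = cv n ℚ := by
    unfold cv
    push_cast
    rfl
  rw [e] at h1
  exact h1

theorem EF_ne {n : ℕ} (hn : Cls0 n) (k : Type) [Field k] [CharZero k] :
    (EF k (-(n : ℤ))).Δ ≠ 0 := by
  have h60 := hn.2
  have h4 : (-(n : ℤ)) % 4 = 1 := by omega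
  rw [EF_Δ h4]
  refine mul_ne_zero (by norm_num) (pow_ne_zero 6 ?_)
  have : (-(n : ℤ)) ≠ 0 := by omega
  exact_mod_cast this

/-- the two equations -/
theorem rank_cv {n : ℕ} (hn : Cls0 n) (k : Type) [Field k] [CharZero k] (d : DecidableEq k) :
    @Module.rank ℤ (EF k (-(n : ℤ))).toAffine.Point _
      (@Affine.Point.instAddCommGroup k _ _ d).toAddCommMonoid
      (@AddCommGroup.toIntModule _ (@Affine.Point.instAddCommGroup k _ _ d)) =
    Module.rank ℤ (MP (cv n k)) := by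
  obtain rfl : d = Classical.decEq k := Subsingleton.elim _ _
  have h60 := hn.2
  have h4 : (-(n : ℤ)) % 4 = 1 := by omega
  let _ : DecidableEq k := Classical.decEq k
  exact ((vr (F := k) h4).equiv (EF_ne hn k)).toIntLinearEquiv.rank_eq

/-- **stability of the rank** -/
theorem rank_st (h : MQ F H r) {n : ℕ} (hn : Cls0 n)
    (hg : ∀ T ∈ H, T ≠ ∅ → Qc (tn n T)) (d : DecidableEq F) (d' : DecidableEq ℚ) :
    @Module.rank ℤ (EF F (-(n : ℤ))).toAffine.Point _
      (@Affine.Point.instAddCommGroup F _ _ d).toAddCommMonoid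
      (@AddCommGroup.toIntModule _ (@Affine.Point.instAddCommGroup F _ _ d)) =
    @Module.rank ℤ (EF ℚ (-(n : ℤ))).toAffine.Point _
      (@Affine.Point.instAddCommGroup ℚ _ _ d').toAddCommMonoid
      (@AddCommGroup.toIntModule _ (@Affine.Point.instAddCommGroup ℚ _ _ d')) := by
  rw [rank_cv hn F d, rank_cv hn ℚ d']
  exact rank_eq' h hn.1 fun T hT hT0 => fin_of (cls_tn h hn hT) (hg T hT hT0)

/-- **finiteness** -/
theorem fin_F (h : MQ F H r) {n : ℕ} (hn : Cls0 n) (hg : ∀ T ∈ H, Qc (tn n T)) :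
    Finite (EF F (-(n : ℤ))).toAffine.Point := by
  have h60 := hn.2
  have h4 : (-(n : ℤ)) % 4 = 1 := by omega
  have h2 := Run7.h921.NF.fin h hn.1 fun T hT => fin_of (cls_tn h hn hT) (hg T hT)
  have h3 : Finite (cv n F).toAffine.Point := h2
  exact Finite.of_injective _ ((vr (F := F) h4).fn_bij (EF_ne hn F)).injective

end

end Run7.h428.X15
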