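import Pool.Agent.Run7.h428.X15.Rkg
import Pool.Agent.Run7.h424.M6.Tl

/-!
# The torsion points over multiquadratic fields, and the points if the twisted parts are finite

The formulas for the curve after `Run7/h424/M6` (helper424), the Galois module after
`Run7/h921/NF/RK` (helper921) and `Run7/h401/MQ/Rk` (helper401).
-/

set_option autoImplicit false
set_option linter.unusedSectionVars false

open scoped symmDiff

namespace Run7.h428.X15

open WeierstrassCurve
open Run7.h428.NF Run7.h921.NF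
open Pool.Agent.Y682 Pool.Agent.TH841.NF

section gen

variable {k : Type} [Field k] [CharZero k] {n : ℕ}

theorem eqnF {x y : k} : (cv n k).toAffine.Equation x y ↔
    y ^ 2 = x * (x + 9 * n) * (x + 25 * n) := by
  rw [Affine.equation_iff]
  simp only [cv]
  constructor
  · intro h
    linear_combination h
  · intro h
    linear_combination h

theorem deltaF (hn : n ≠ 0) : (cv n k).Δ ≠ 0 := by
  have hq : (n : k) ≠ 0 := by exact_mod_cast hn
  have : (cv n k).Δ = 207360000 * (n : k) ^ 6 := by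
    simp only [WeierstrassCurve.Δ, WeierstrassCurve.b₂, WeierstrassCurve.b₄, WeierstrassCurve.b₆,
      WeierstrassCurve.b₈, cv]
    ring
  rw [this]
  exact mul_ne_zero (by norm_num) (pow_ne_zero _ hq)

theorem nsF (hn : n ≠ 0) {x y : k} (h : y ^ 2 = x * (x + 9 * n) * (x + 25 * n)) :
    (cv n k).toAffine.Nonsingular x y :=
  ((cv n k).toAffine.equation_iff_nonsingular_of_Δ_ne_zero (deltaF hn)).1 (eqnF.2 h)

/-- the doubling formula -/
theorem dblF [DecidableEq k] (x y : k) (h : (cv n k).toAffine.Nonsingular x y) (hy : y ≠ 0) :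
    ∃ (X Y : k) (H : (cv n k).toAffine.Nonsingular X Y),
      (Affine.Point.some x y h : (cv n k).toAffine.Point) + Affine.Point.some x y h =
        Affine.Point.some X Y H ∧ X = ((x ^ 2 - 225 * n ^ 2) / (2 * y)) ^ 2 ∧
      X + 9 * n = (((x + 9 * n) ^ 2 + 144 * n ^ 2) / (2 * y)) ^ 2 ∧
      X + 25 * n = (((x + 25 * n) ^ 2 - 400 * n ^ 2) / (2 * y)) ^ 2 := by
  have he := eqnF.1 h.1
  have hne : y ≠ (cv n k).toAffine.negY x y := by
    intro h1
    simp only [Affine.negY, cv] at h1
    apply hy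
    have h2 : 2 * y = 0 := by linear_combination h1
    simpa using h2
  have h2y : (2 : k) * y ≠ 0 := mul_ne_zero two_ne_zero hy
  have e1 : (cv n k).toAffine.addX x x ((cv n k).toAffine.slope x x y y) =
      ((x ^ 2 - 225 * n ^ 2) / (2 * y)) ^ 2 := by
    rw [Affine.slope_of_Y_ne rfl hne]
    simp only [Affine.addX, Affine.negY, cv]
    have e2 : y - (-y - 0 * x - 0) = 2 * y := by ring
    rw [e2, div_pow, div_pow]
    field_simp
    linear_combination (-(4 * (34 * (n : k)) + 8 * x)) * he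
  refine ⟨_, _, _, Affine.Point.add_self_of_Y_ne hne, e1, ?_, ?_⟩
  · rw [e1, div_pow, div_pow]
    field_simp
    linear_combination (36 * (n : k)) * he
  · rw [e1, div_pow, div_pow]
    field_simp
    linear_combination (100 * (n : k)) * he

/-- the points of order two -/
theorem twoF [DecidableEq k] (P : (cv n k).toAffine.Point) (h : P + P = 0) : P = 0 ∨
    ∃ (x : k) (H : (cv n k).toAffine.Nonsingular x 0), P = Affine.Point.some x 0 H ∧
      (x = 0 ∨ x = -9 * n ∨ x = -25 * n) := by
  cases P with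
  | zero => exact Or.inl rfl
  | some x y hxy =>
    right
    have he := eqnF.1 hxy.1
    have hy : y = 0 := by
      by_contra hy
      obtain ⟨X, Y, H, h1, -⟩ := dblF x y hxy hy
      have h2 := h1.symm.trans h
      exact Affine.Point.some_ne_zero _ h2
    subst hy
    refine ⟨x, hxy, rfl, ?_⟩
    have h3 : x * (x + 9 * n) * (x + 25 * n) = 0 := by
      rw [← he]; ring
    rcases mul_eq_zero.1 h3 with h3 | h3
    · rcases mul_eq_zero.1 h3 with h3 | h3
      · exact Or.inl h3
      · exact Or.inr (Or.inl (by linear_combination h3))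
    · exact Or.inr (Or.inr (by linear_combination h3))

/-- no points of order four, if neither `n` nor `-n` is a square -/
theorem no4F [DecidableEq k] (h1 : ∀ z : k, z ^ 2 ≠ (n : k)) (h2 : ∀ z : k, z ^ 2 ≠ -(n : k))
    (R : (cv n k).toAffine.Point) (h : (R + R) + (R + R) = 0) : R + R = 0 := by
  cases R with
  | zero => exact add_zero _
  | some x y hxy =>
    by_cases hy : y = 0
    · subst hy
      apply Affine.Point.add_self_of_Y_eq
      simp [Affine.negY, cv]
    · exfalso
      obtain ⟨X, Y, H, h3, hX, h9, h25⟩ := dblF x y hxy hy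
      rw [h3] at h
      rcases twoF _ h with h4 | ⟨X', H', h4, h5⟩
      · exact Affine.Point.some_ne_zero _ h4
      · have h6 := ((Affine.Point.some.injEq ..).mp h4).1
        rw [← h6] at h5
        rcases h5 with h5 | h5 | h5
        · rw [h5, zero_add] at h9
          apply h1 ((((x + 9 * n) ^ 2 + 144 * n ^ 2) / (2 * y)) / 3)
          rw [div_pow, ← h9]
          ring
        · rw [h5] at hX
          apply h2 (((x ^ 2 - 225 * n ^ 2) / (2 * y)) / 3)
          rw [div_pow, ← hX]
          ring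
        · rw [h5] at hX
          apply h2 (((x ^ 2 - 225 * n ^ 2) / (2 * y)) / 5)
          rw [div_pow, ← hX]
          ring

/-- the points killed by two -/
theorem card_fin [DecidableEq k] (hn : n ≠ 0) : ∃ S : Finset (cv n k).toAffine.Point,
    S.card = 4 ∧ ∀ P : (cv n k).toAffine.Point, P + P = 0 ↔ P ∈ S := by
  have hq : (n : k) ≠ 0 := by exact_mod_cast hn
  have n0 := nsF (k := k) hn (x := 0) (y := 0) (by ring)
  have n9 := nsF (k := k) hn (x := -9 * n) (y := 0) (by ring)
  have n25 := nsF (k := k) hn (x := -25 * n) (y := 0) (by ring)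
  have d1 : (0 : k) ≠ -9 * n := by
    intro h
    apply hq
    have : (9 : k) * n = 0 := by linear_combination h
    simpa using this
  have d2 : (0 : k) ≠ -25 * n := by
    intro h
    apply hq
    have : (25 : k) * n = 0 := by linear_combination h
    simpa using this
  have d3 : (-9 * n : k) ≠ -25 * n := by
    intro h
    apply hq
    have : (16 : k) * n = 0 := by linear_combination h
    simpa using this
  have hz : ∀ (x : k) (H : (cv n k).toAffine.Nonsingular x 0),
      (Affine.Point.some x 0 H : (cv n k).toAffine.Point) + Affine.Point.some x 0 H = 0 := by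
    intro x H
    apply Affine.Point.add_self_of_Y_eq
    simp [Affine.negY, cv]
  refine ⟨{0, Affine.Point.some 0 0 n0, Affine.Point.some _ 0 n9, Affine.Point.some _ 0 n25},
    ?_, fun P => ⟨fun hP => ?_, fun hP => ?_⟩⟩
  · rw [Finset.card_insert_of_notMem, Finset.card_insert_of_notMem,
      Finset.card_insert_of_notMem, Finset.card_singleton]
    · rw [Finset.mem_singleton]
      intro h
      exact d3 ((Affine.Point.some.injEq ..).mp h).1
    · rw [Finset.mem_insert, Finset.mem_singleton]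
      rintro (h | h)
      · exact d1 ((Affine.Point.some.injEq ..).mp h).1
      · exact d2 ((Affine.Point.some.injEq ..).mp h).1
    · simp only [Finset.mem_insert, Finset.mem_singleton]
      rintro (h | h | h)
      · exact Affine.Point.some_ne_zero _ h.symm
      · exact Affine.Point.some_ne_zero _ h.symm
      · exact Affine.Point.some_ne_zero _ h.symm
  · simp only [Finset.mem_insert, Finset.mem_singleton]
    rcases twoF P hP with h4 | ⟨x, H, h4, h5⟩
    · exact Or.inl h4
    · right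
      rcases h5 with rfl | rfl | rfl
      · exact Or.inl h4
      · exact Or.inr (Or.inl h4)
      · exact Or.inr (Or.inr h4)
  · simp only [Finset.mem_insert, Finset.mem_singleton] at hP
    rcases hP with rfl | rfl | rfl | rfl
    · exact add_zero _
    · exact hz _ _
    · exact hz _ _
    · exact hz _ _

/-- the order of a set of points described by `P + P = 0` -/
theorem card4 [DecidableEq k] (hn : n ≠ 0) {A : Set (cv n k).toAffine.Point}
    (hA : ∀ P, P ∈ A ↔ P + P = 0) : Nat.card A = 4 := by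
  obtain ⟨S, h1, h2⟩ := card_fin (k := k) hn
  have h3 : A = (S : Set (cv n k).toAffine.Point) := by
    ext P
    rw [hA, h2]
    rfl
  have h4 : Nat.card A = A.ncard := rfl
  rw [h4, h3, Set.ncard_coe_finset, h1]

end gen

section field

variable {F : Type} [Field F] [NumberField F] {H : Finset (Finset ℕ)} {r : Finset ℕ → F}

/-- over the rational numbers -/
theorem tors_Q {n : ℕ} (hn : n % 4 = 3) (P : MP (cv n ℚ)) (hP : IsOfFinAddOrder P) :
    P + P = 0 := by
  have key : ∀ (inst : DecidableEq ℚ) (P : (cv n ℚ).toAffine.Point),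
      @IsOfFinAddOrder _ (@Affine.Point.instAddCommGroup ℚ _ _ inst).toAddGroup.toSubNegMonoid.toAddMonoid
        P → @HAdd.hAdd _ _ _ (@instHAdd _ (@Affine.Point.instAddCommGroup ℚ _ _
          inst).toAddGroup.toSubNegMonoid.toAddMonoid.toAddSemigroup.toAdd) P P = 0 := by
    intro inst P hP
    obtain rfl : inst = instDecidableEqRat := Subsingleton.elim _ _
    exact Run7.h424.M6.tors2 (Run7.h424.M6.no4 hn)
      (fun R m hm hR => Run7.h424.M6.noodd hn R hm hR) P hP
  exact key (Classical.decEq ℚ) P hP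

/-- the degree is a power of two -/
theorem card_pow (h : MQ F H r) : ∃ k, H.card = 2 ^ k := by
  classical
  have hG := h.isGalois
  have h1 : IsPGroup 2 (F ≃ₐ[ℚ] F) := fun σ => ⟨1, by rw [pow_one, pow_two, h.sq_one σ]⟩
  obtain ⟨k, hk⟩ := IsPGroup.iff_card.1 h1
  refine ⟨k, ?_⟩
  rw [← hk, IsGalois.card_aut_eq_finrank, h.finrank_eq]

/-- the torsion points are killed by a power of two -/
theorem tors_pow (h : MQ F H r) {n : ℕ} (hn : Squarefree n)
    (h3 : ∀ T ∈ H, tn n T % 4 = 3) (P : MP (cv n F)) (hP : IsOfFinAddOrder P) :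
    (2 * (H.card : ℤ)) • P = 0 := by
  classical
  have hG := h.isGalois
  let proj : Finset ℕ → MP (cv n F) → MP (cv n F) := fun T P => ∑ σ : F ≃ₐ[ℚ] F, sg r T σ • ga n σ P
  have hpr : ∀ T ∈ H, ∀ (τ : F ≃ₐ[ℚ] F) (P : MP (cv n F)),
      ga n τ (proj T P) = sg r T τ • proj T P := by
    intro T hT τ P
    simp only [proj]
    rw [map_sum, Finset.smul_sum]
    rw [← Equiv.sum_comp (Equiv.mulLeft τ) (fun σ => sg r T τ • (sg r T σ • ga n σ P))]
    refine Finset.sum_congr rfl fun σ _ => ?_
    rw [map_zsmul, Equiv.coe_mulLeft, ga_mul, sg_mul h hT, smul_smul, ← mul_assoc]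
    have : sg r T τ * sg r T τ = 1 := by
      rcases sg_cases r T τ with h2 | h2 <;> rw [h2] <;> norm_num
    rw [this, one_mul]
  have hsum : ∀ P : MP (cv n F), ∑ T ∈ H, proj T P = (H.card : ℤ) • P := by
    intro P
    simp only [proj]
    rw [Finset.sum_comm]
    have h1 : ∀ σ : F ≃ₐ[ℚ] F, ∑ T ∈ H, sg r T σ • ga n σ P = (∑ T ∈ H, sg r T σ) • ga n σ P :=
      fun σ => (Finset.sum_smul).symm
    rw [Finset.sum_congr rfl (fun σ _ => h1 σ), Finset.sum_eq_single (1 : F ≃ₐ[ℚ] F)]
    · rw [ga_one]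
      congr 1
      have : ∀ T ∈ H, sg r T (1 : F ≃ₐ[ℚ] F) = 1 := by
        intro T hT
        apply sg_uniq h hT
        simp
      rw [Finset.sum_congr rfl this]
      simp
    · intro σ _ hσ
      rw [orth h hσ, zero_smul]
    · exact fun h => absurd (Finset.mem_univ _) h
  obtain ⟨N, hN, hNP⟩ := isOfFinAddOrder_iff_nsmul_eq_zero.1 hP
  have hpN : ∀ T, N • proj T P = 0 := by
    intro T
    simp only [proj]
    rw [Finset.smul_sum]
    refine Finset.sum_eq_zero fun σ _ => ?_
    rw [smul_comm, ← map_nsmul, hNP, map_zero, smul_zero]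
  have h2 : ∀ T ∈ H, (2 : ℤ) • proj T P = 0 := by
    intro T hT
    obtain ⟨Q, hQ⟩ := desc h hT hn fun σ => hpr T hT σ P
    have hQ0 : N • Q = 0 := by
      apply mu_inj (sc_tw h hT hn)
      rw [map_nsmul, hQ, hpN T, map_zero]
    have hQ2 := tors_Q (h3 T hT) Q (isOfFinAddOrder_iff_nsmul_eq_zero.2 ⟨N, hN, hQ0⟩)
    rw [← hQ, ← map_zsmul, two_smul, hQ2, map_zero]
  rw [mul_smul, ← hsum, Finset.smul_sum]
  exact Finset.sum_eq_zero h2

/-- **the torsion points** -/
theorem tors_F (h : MQ F H r) {n : ℕ} (hn : Squarefree n)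
    (h3 : ∀ T ∈ H, tn n T % 4 = 3) (hs : ∀ z : F, z ^ 2 ≠ (n : F)) (hs' : ∀ z : F, z ^ 2 ≠ -(n : F))
    (P : MP (cv n F)) (hP : IsOfFinAddOrder P) : P + P = 0 := by
  obtain ⟨k, hk⟩ := card_pow h
  have h4 : ∀ R : MP (cv n F), (R + R) + (R + R) = 0 → R + R = 0 := fun R hR =>
    @no4F F _ _ n (Classical.decEq F) hs hs' R hR
  refine Run7.h424.M6.tors2 h4 (fun R m hm hR => ?_) P hP
  have hm0 : 0 < m := hm.pos
  have h5 := tors_pow h hn h3 R (isOfFinAddOrder_iff_nsmul_eq_zero.2 ⟨m, hm0, hR⟩)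
  have h6 : 2 ^ (k + 1) • R = 0 := by
    rw [hk] at h5
    have : (2 * ((2 ^ k : ℕ) : ℤ)) = ((2 ^ (k + 1) : ℕ) : ℤ) := by push_cast; ring
    rw [this, natCast_zsmul] at h5
    exact h5
  have h7 : addOrderOf R ∣ 2 ^ (k + 1) := addOrderOf_dvd_iff_nsmul_eq_zero.2 h6
  have h8 : addOrderOf R ∣ m := addOrderOf_dvd_iff_nsmul_eq_zero.2 hR
  have h9 : Nat.Coprime (2 ^ (k + 1)) m := Nat.Coprime.pow_left _ (Nat.coprime_two_left.2 hm)
  have h10 := Nat.eq_one_of_dvd_coprimes h9 h7 h8
  exact AddMonoid.addOrderOf_eq_one_iff.1 h10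

/-- **the double of each point is rational, if the twisted parts are finite** -/
theorem two_mul_rat (h : MQ F H r) {n : ℕ} (hn : Squarefree n)
    (h3 : ∀ T ∈ H, tn n T % 4 = 3) (hs : ∀ z : F, z ^ 2 ≠ (n : F)) (hs' : ∀ z : F, z ^ 2 ≠ -(n : F))
    (hf : ∀ T ∈ H, T ≠ ∅ → Finite (MP (cv (tn n T) ℚ))) (P : MP (cv n F)) :
    ∃ Q : MP (cv (tn n ∅) ℚ), mu (sc_tw h h.emp hn) Q = P + P := by
  obtain ⟨c, hc0, hc⟩ := mult_mem h hn hf
  obtain ⟨Q₀, hQ₀⟩ := hc P
  refine desc h h.emp hn fun σ => ?_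
  have hr : σ (r ∅) = r ∅ := by
    have h1 := h.sq ∅ h.emp
    rw [Finset.prod_empty, Nat.cast_one] at h1
    have h2 : (r ∅ - 1) * (r ∅ + 1) = 0 := by linear_combination h1
    rcases mul_eq_zero.1 h2 with h2 | h2
    · rw [sub_eq_zero.1 h2]; simp
    · rw [eq_neg_of_add_eq_zero_left h2]; simp
  have hsg : sg r ∅ σ = 1 := by
    apply sg_uniq h h.emp
    rw [hr]
    simp
  have hu : σ (uu r n ∅) = uu r n ∅ := by
    unfold uu
    rw [map_mul, map_natCast, map_inv₀, hr]
  have hfix : ga n σ (mu (sc_tw h h.emp hn) Q₀) = mu (sc_tw h h.emp hn) Q₀ := by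
    rcases Q₀ with _ | ⟨x, y, hxy⟩
    · rfl
    · refine pt_ext' (W := cv n F) ?_ ?_
      · change σ (algebraMap ℚ F x * uu r n ∅ ^ 2) * 1 ^ 2 = algebraMap ℚ F x * uu r n ∅ ^ 2
        rw [map_mul, map_pow, hu, AlgEquiv.commutes, one_pow, mul_one]
      · change σ (algebraMap ℚ F y * uu r n ∅ ^ 3) * 1 ^ 3 = algebraMap ℚ F y * uu r n ∅ ^ 3
        rw [map_mul, map_pow, hu, AlgEquiv.commutes, one_pow, mul_one]
  have h4 : c • (ga n σ P - P) = 0 := by
    rw [smul_sub, ← map_zsmul, ← hQ₀, hfix, sub_self]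
  have h5 := tors_F h hn h3 hs hs' (ga n σ P - P)
    (isOfFinAddOrder_iff_zsmul_eq_zero.2 ⟨c, hc0, h4⟩)
  rw [hsg, one_smul, map_add]
  have h6 : ga n σ P + ga n σ P - (P + P) = 0 := by
    rw [← h5]
    abel
  exact sub_eq_zero.1 h6

end field

end Run7.h428.X15
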